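import Pool.Agent.Lib.MP_d6ddbd_nt.E11.Int

/-!
The functions on `X₀(11)` with poles only at infinity, and the principle of expansions.
-/

set_option autoImplicit false

open UpperHalfPlane Filter Topology
open Pool.Agent.Lib.MP_9177b7_ag.CM Pool.Agent.Lib.MP_9177b7_ag.CM.Norm
open Pool.Agent.Lib.MP_d6ddbd_nt.X (qq hq_congr hq_sub hq_smul hq_X hq_pow hq_hol hq_bdd hq_tendsto
  hq_divX hq_const)

noncomputable section

namespace Pool.Agent.Lib.MP_d6ddbd_nt.E11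

variable {F G : ℍ → ℂ} {n : ℕ} {c : PowerSeries ℂ}

/-- Invariant functions that are bounded at the cusp `0`. -/
def A0 (F : ℍ → ℂ) : Prop := Inv F ∧ IsBoundedAtImInfty fun τ => F (ww τ)

theorem A0.add (h : A0 F) (h' : A0 G) : A0 fun z => F z + G z :=
  ⟨fun γ hγ τ => by simp only [h.1 γ hγ τ, h'.1 γ hγ τ], BoundedAtFilter.add h.2 h'.2⟩

theorem A0.mul (h : A0 F) (h' : A0 G) : A0 fun z => F z * G z :=
  ⟨fun γ hγ τ => by simp only [h.1 γ hγ τ, h'.1 γ hγ τ], BoundedAtFilter.mul h.2 h'.2⟩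

theorem a0_const (a : ℂ) : A0 fun _ => a := ⟨fun _ _ _ => rfl, const_boundedAtFilter _ a⟩

theorem A0.pow (h : A0 F) (k : ℕ) : A0 fun z => F z ^ k := by
  induction k with
  | zero => simpa using a0_const 1
  | succ k ih => simpa [pow_succ] using ih.mul h

theorem A0.sub (h : A0 F) (h' : A0 G) : A0 fun z => F z - G z := by
  simpa [sub_eq_add_neg] using h.add ((a0_const (-1)).mul h')

theorem a0_XX : A0 XX := (a0_const 4).mul ⟨inv_xf, ex_xw.bdd⟩

theorem a0_YY : A0 YY := ((a0_const 8).mul ⟨inv_yf, ex_yw.bdd⟩).add (a0_const 4)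

open PowerSeries in
theorem ind (P : AddSubgroup ℂ) (S : (ℍ → ℂ) → Prop) (h0 : ∀ a ∈ P, S fun _ => a)
    (hS : ∀ F G, S F → S G → S fun τ => F τ + G τ)
    (hm : ∀ (n : ℕ) F c, A0 F → HQ 1 (fun τ => qq 1 τ ^ (n + 1) * F τ) c → coeff 0 c ∈ P →
      ∃ m d, A0 m ∧ S m ∧ HQ 1 (fun τ => qq 1 τ ^ (n + 1) * m τ) d ∧ (∀ i, coeff i d ∈ P) ∧
        coeff 0 d = coeff 0 c) (n : ℕ) :
    ∀ F c, A0 F → HQ 1 (fun τ => qq 1 τ ^ n * F τ) c → (∀ i, coeff i c ∈ P) → S F := by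
  induction n with
  | zero =>
    intro F c hF H hc
    simp only [pow_zero, one_mul] at H
    obtain ⟨a, ha⟩ := liou F (hq_hol one_pos H) hF.1 (hq_bdd one_pos H) hF.2
    obtain rfl : F = fun _ => a := funext ha
    exact h0 a (tendsto_nhds_unique (hq_tendsto one_pos H) tendsto_const_nhds ▸ hc 0)
  | succ n ih =>
    intro F c hF H hc
    obtain ⟨m, d, k1, k2, k3, k4, k5⟩ := hm n F c hF H (hc 0)
    obtain ⟨e, he⟩ : X ∣ c - d := X_dvd_iff.2 (by
      rw [← coeff_zero_eq_constantCoeff_apply, map_sub, k5, sub_self])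
    have := ih _ e (hF.sub k1) (hq_divX (hq_congr (he ▸ hq_sub H k3) fun τ => by ring)) fun i => by
      rw [← coeff_succ_X_mul, ← he, map_sub]
      exact sub_mem (hc _) (k4 _)
    simpa using hS _ _ this k2

theorem zero_of_finite (H : HQ 1 (fun τ => qq 1 τ ^ (n + 1) * F τ) c) (h : (Set.range F).Finite) :
    PowerSeries.coeff 0 c = 0 := by
  obtain ⟨B, hB⟩ := (h.image norm).bddAbove
  refine tendsto_nhds_unique (hq_tendsto one_pos H) (Tendsto.zero_mul_isBoundedUnder_le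
    (by simpa using hq_tendsto one_pos (hq_pow (hq_X 1) (n + 1)))
    (isBoundedUnder_of ⟨B, fun τ => hB ⟨_, ⟨τ, rfl⟩, rfl⟩⟩))

open Polynomial in
theorem cusp_poly {P Q : ℂ[X]} (h : Q ^ 2 = P ^ 3 - 4 * P ^ 2 - 160 * P - 1264) :
    P.natDegree = 0 := by
  have h1 := congrArg derivative h
  simp only [derivative_mul, derivative_sub, derivative_ofNat, pow_succ, pow_zero, one_mul,
    zero_mul, zero_add, sub_zero] at h1
  have hc : IsCoprime Q (3 * P ^ 2 - 8 * P - 160) := by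
    have h0 : (C (2576816 : ℂ)⁻¹ : ℂ[X]) * 2576816 = 1 := by
      rw [← map_ofNat C, ← C_mul, inv_mul_cancel₀ (by norm_num), C_1]
    refine ⟨C (2576816 : ℂ)⁻¹ * (-2749 + 186 * P) * Q,
      C (2576816 : ℂ)⁻¹ * (5612 + 999 * P - 62 * P ^ 2), ?_⟩
    linear_combination (C (2576816 : ℂ)⁻¹ * (-2749 + 186 * P)) * h + h0
  have hd : Q ∣ derivative P := hc.dvd_of_dvd_mul_left ⟨2 * derivative Q, by linear_combination -h1⟩
  by_contra hP
  have hP' : derivative P ≠ 0 := fun e => hP (derivative_eq_zero.1 e)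
  have d1 := natDegree_le_of_dvd hd hP'
  have d2 := natDegree_derivative_lt hP
  have d3 : (P ^ 3 - 4 * P ^ 2 - 160 * P - 1264).natDegree = 3 * P.natDegree := by
    have e : P ^ 3 - 4 * P ^ 2 - 160 * P - 1264 =
        (X ^ 3 - 4 * X ^ 2 - 160 * X - 1264 : ℂ[X]).comp P := by simp
    rw [e, natDegree_comp]
    congr 1
    compute_degree!
  rw [← h, natDegree_pow] at d3
  omega

theorem gap (hG : A0 G) (H : HQ 1 (fun τ => qq 1 τ ^ (0 + 1) * G τ) c) :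
    PowerSeries.coeff 0 c = 0 := by
  by_contra h0
  have key := ind ⊤ (fun F => ∃ p : Polynomial ℂ, ∀ τ, F τ = p.eval (G τ))
    (fun a _ => ⟨Polynomial.C a, by simp⟩)
    (fun _ _ ⟨p, hp⟩ ⟨r, hr⟩ => ⟨p + r, by simp [hp, hr]⟩) fun n F d _ _ _ =>
      ⟨_, _, (a0_const (PowerSeries.coeff 0 d / PowerSeries.coeff 0 c ^ (n + 1))).mul
        (hG.pow (n + 1)), ⟨Polynomial.C (PowerSeries.coeff 0 d / PowerSeries.coeff 0 c ^ (n + 1)) *
          Polynomial.X ^ (n + 1), by simp⟩,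
        hq_congr (hq_smul (PowerSeries.coeff 0 d / PowerSeries.coeff 0 c ^ (n + 1))
          (hq_pow H (n + 1))) fun τ => by ring, fun _ => trivial, by
        rw [PowerSeries.coeff_C_mul, PowerSeries.coeff_zero_eq_constantCoeff, map_pow,
          div_mul_cancel₀ _ (pow_ne_zero _ (by simpa using h0))]⟩
  obtain ⟨φ, x1, x2⟩ := ser_XX
  obtain ⟨ψ, y1, -⟩ := ser_YY
  obtain ⟨p, hp⟩ := key 2 _ _ a0_XX x1 fun _ => trivial
  obtain ⟨r, hr⟩ := key 3 _ _ a0_YY y1 fun _ => trivial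
  have h1 := Polynomial.eq_of_infinite_eval_eq (r ^ 2) (p ^ 3 - 4 * p ^ 2 - 160 * p - 1264)
    (Set.Infinite.mono (by
      rintro _ ⟨τ, rfl⟩
      simpa [← hp, ← hr] using eqn τ) fun h => h0 (zero_of_finite H h))
  obtain ⟨a, rfl⟩ := Polynomial.natDegree_eq_zero.1 (cusp_poly h1)
  have := zero_of_finite (n := 1) x1 ((Set.finite_singleton a).subset (by
    rintro _ ⟨τ, rfl⟩
    simpa using hp τ))
  rw [PowerSeries.coeff_map, x2] at this
  simp at this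

open PowerSeries in
theorem monomial (O : ValuationSubring ℂ) {z : ℍ} (hx : XX z ∈ O) (hy : YY z ∈ O) (hn : n ≠ 1) :
    ∃ (m : ℍ → ℂ) (φ : PowerSeries ℤ), A0 m ∧ m z ∈ O ∧ coeff 0 φ = 2 ^ n ∧
      HQ 1 (fun τ => qq 1 τ ^ n * m τ) (φ.map (Int.castRingHom ℂ)) := by
  obtain ⟨φ, x1, x2⟩ := ser_XX
  obtain ⟨ψ, y1, y2⟩ := ser_YY
  rw [coeff_zero_eq_constantCoeff] at *
  obtain ⟨i, rfl | rfl⟩ : ∃ i, n = 2 * i ∨ n = 2 * i + 3 := by
    rcases Nat.even_or_odd' n with ⟨i, rfl | rfl⟩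
    · exact ⟨i, Or.inl rfl⟩
    · exact ⟨i - 1, Or.inr (by omega)⟩
  · refine ⟨_, φ ^ i, a0_XX.pow i, pow_mem hx i, by rw [map_pow, x2, pow_mul]; norm_num, ?_⟩
    rw [map_pow]
    exact hq_congr (hq_pow x1 i) fun τ => by ring
  · refine ⟨_, φ ^ i * ψ, (a0_XX.pow i).mul a0_YY, mul_mem (pow_mem hx i) hy,
      by rw [map_mul, map_pow, x2, y2, pow_add, pow_mul]; norm_num, ?_⟩
    rw [map_mul, map_pow]
    exact hq_congr (HQ_mul (hq_pow x1 i) y1) fun τ => by ring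

open PowerSeries in
/-- The principle of expansions. -/
theorem span (O : ValuationSubring ℂ) (h2 : (2 : ℂ)⁻¹ ∈ O) (P : AddSubgroup ℂ)
    (hP : ∀ a ∈ P, ∀ b ∈ O, a * b ∈ P) (hF : A0 F) (H : HQ 1 (fun τ => qq 1 τ ^ n * F τ) c)
    (hc : ∀ i, coeff i c ∈ P) {z : ℍ} (hx : XX z ∈ O) (hy : YY z ∈ O) : F z ∈ P := by
  refine ind P (fun F => F z ∈ P) (fun _ h => h) (fun _ _ => add_mem) (fun n F c hF H hc => ?_)
    n F c hF H hc
  rcases eq_or_ne n 0 with rfl | hn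
  · exact ⟨fun _ => 0, 0, a0_const 0, zero_mem _, by simpa using hq_const 1 0,
      fun _ => by simp, by simpa using (gap hF H).symm⟩
  · obtain ⟨m, φ, k1, k2, k3, k4⟩ := monomial O hx hy (n := n + 1) (by omega)
    have k5 := hP _ hc _ (pow_mem h2 (n + 1))
    refine ⟨_, _, (a0_const _).mul k1, hP _ k5 _ k2,
      hq_congr (hq_smul (coeff 0 c * 2⁻¹ ^ (n + 1)) k4) fun τ => by ring, fun i => ?_, ?_⟩
    · rw [coeff_C_mul, coeff_map]
      exact hP _ k5 _ (intCast_mem O _)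
    · rw [coeff_C_mul, coeff_map, k3, eq_intCast, mul_assoc]
      push_cast
      rw [← mul_pow, inv_mul_cancel₀ two_ne_zero, one_pow, mul_one]

end Pool.Agent.Lib.MP_d6ddbd_nt.E11
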