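import Pool.Agent.Lib.MP_d6ddbd_nt.E11.Hec
import Pool.Agent.Lib.MP_d6ddbd_nt.E11.FF

/-!
The congruence relation for the Hecke correspondences on `X₀(11)`.
-/

set_option autoImplicit false

open UpperHalfPlane Filter Topology PowerSeries
open scoped MatrixGroups
open Pool.Agent.Lib.MP_9177b7_ag.CM Pool.Agent.Lib.MP_9177b7_ag.CM.Norm
open Pool.Agent.Lib.MP_d6ddbd_nt.X (hq_congr hq_smul hq_sub hq_prod hq_pow hq_X hq_bdd)
open Pool.Agent.Lib.MP_d6ddbd_nt.K11 (Ov)

noncomputable section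

namespace Pool.Agent.Lib.MP_d6ddbd_nt.E11

variable {l : ℕ} {O : ValuationSubring ℂ}

/-- The series of `q ^ (3 n) (T - X ^ n - s Y ^ n)`. -/
def sU {R : Type} [CommRing R] (A B : PowerSeries ℤ) (n : ℕ) (T s : R) : PowerSeries R :=
  C T * (X ^ 3) ^ n - (X * A.map (Int.castRingHom R)) ^ n - C s * B.map (Int.castRingHom R) ^ n

/-- The series that is controlled by the congruence. -/
def sW {R : Type} [CommRing R] (A B : PowerSeries ℤ) (hl : l ≠ 0) (ζ T s : R) : PowerSeries R :=
  ∏ i, ns hl ζ i (sU A B 1 T s) - expand l hl (sU A B l T s * sU A B 1 (T ^ l) (s ^ l))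

section

variable {R S : Type} [CommRing R] [CommRing S] (f : R →+* S) (A B : PowerSeries ℤ)

theorem map_sU (n : ℕ) (T s : R) : (sU A B n T s).map f = sU A B n (f T) (f s) := by
  simp only [sU, map_sub, map_mul, map_pow, map_C, map_X, Kron.map_int]

theorem map_ns (hl : l ≠ 0) (ζ : R) (i : Option (Fin l)) (a : PowerSeries R) :
    (ns hl ζ i a).map f = ns hl (f ζ) i (a.map f) := by
  rcases i with _ | i
  · exact (map_expand l hl f _).trans (congrArg (expand l hl) (map_expand l hl f a))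
  · simp only [ns, Option.elim, ← rescale_map, map_pow]

theorem map_sW (hl : l ≠ 0) (ζ T s : R) :
    (sW A B hl ζ T s).map f = sW A B hl (f ζ) (f T) (f s) := by
  simp only [sW, map_sub (PowerSeries.map f), map_prod (PowerSeries.map f), map_ns, map_expand,
    map_mul (PowerSeries.map f), map_sU, map_pow f]

theorem sW_zero (hl : l.Prime) [CharP R l] (T s : R) : sW A B hl.ne_zero 1 T s = 0 := by
  have := Fact.mk hl
  have key : ∀ a : PowerSeries R, expand l hl.ne_zero (a.map (frobenius R l)) = a ^ l := fun a => by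
    rw [← map_expand]
    exact MvPowerSeries.map_frobenius_expand l hl.ne_zero (f := a)
  have h1 : ∀ a : PowerSeries ℤ, expand l hl.ne_zero (a.map (Int.castRingHom R)) =
      a.map (Int.castRingHom R) ^ l := fun a => by rw [← key, Kron.map_int]
  have h2 : expand l hl.ne_zero (sU A B 1 T s) = sU A B l T s := by
    simp only [sU, map_sub, map_mul, pow_one, expand_C, map_pow, expand_X, h1, mul_pow, ← pow_mul,
      mul_comm l 3]
  rw [sW, Fintype.prod_option, map_mul, sub_eq_zero, ← h2, ← frobenius_def, ← frobenius_def,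
    ← map_sU, key]
  simp [ns]

end

theorem zt_mem (hl : l.Prime) (hO : Ov O l) : ∃ ζ : O, (ζ : ℂ) = zt l ∧ rs O ζ = 1 := by
  have h1 : zt l ∈ O := by
    rw [← O.valuation_le_one_iff, ← pow_le_one_iff hl.ne_zero, ← map_pow, zt_pow hl.ne_zero,
      map_one]
  refine ⟨⟨_, h1⟩, rfl, ?_⟩
  have := rs_char hl hO
  have := Fact.mk hl
  rw [← sub_eq_zero, ← pow_eq_zero_iff hl.ne_zero, sub_pow_char, ← map_pow,
    show (⟨zt l, h1⟩ : O) ^ l = 1 from Subtype.ext (zt_pow hl.ne_zero), map_one, one_pow, sub_self]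

theorem prod_qq (hl : l.Prime) (h2 : l ≠ 2) (τ : ℍ) :
    ∏ i, X.qq 1 (nz l τ i) = X.qq 1 τ ^ (l + 1) := by
  obtain ⟨m, hm⟩ := hl.odd_of_ne_two h2
  have h1 : ∑ i ∈ Finset.range l, i = l * m := by
    have := Finset.sum_range_id_mul_two l
    rw [show l - 1 = m * 2 by omega, ← mul_assoc] at this
    omega
  simp only [Fintype.prod_option, nz, Option.elim, qq_upl hl.ne_zero, qq_dnl hl.ne_zero]
  rw [Finset.prod_mul_distrib, Fin.prod_univ_eq_prod_range (fun i => zt l ^ i),
    Finset.prod_pow_eq_pow_sum, h1, pow_mul, zt_pow hl.ne_zero, Finset.prod_const,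
    Finset.card_univ, Fintype.card_fin, ← qq_lev hl.ne_zero]
  ring

theorem a0_prod {F : ℍ → ℂ} (hl : l.Prime) (h11 : l ≠ 11) (hF : Inv F) {a : PowerSeries ℂ}
    (H : HQ 1 (fun τ => F (ww τ)) a) : A0 fun τ => ∏ i, F (nz l τ i) := by
  refine ⟨fun γ hγ τ => ?_, ?_⟩
  · obtain ⟨e, he⟩ := perm_smul hl h11 hγ τ
    simp only
    rw [← Equiv.prod_comp e]
    refine Finset.prod_congr rfl fun i _ => ?_
    obtain ⟨δ, k1, k2, -⟩ := he i
    rw [k2, hF δ k1]
  · refine hq_bdd (pos_of hl.ne_zero) (hq_congr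
      (hq_prod Finset.univ fun i _ => hq_nz hl.ne_zero H i) fun τ => ?_)
    obtain ⟨e, he⟩ := perm_ww hl h11 τ
    refine (Equiv.prod_comp e _).symm.trans (Finset.prod_congr rfl fun i _ => ?_)
    obtain ⟨δ, k1, k2, -⟩ := he i
    rw [k2, hF δ k1]

theorem cong (hl : l.Prime) (h2 : l ≠ 2) (h11 : l ≠ 11) (hO : Ov O l) (T s : O) {z : ℍ}
    (hx : XX z ∈ O) (hy : YY z ∈ O) : ∏ i, (T - XX (nz l z i) - s * YY (nz l z i)) -
      (T - XX z ^ l - s * YY z ^ l) * (T ^ l - XX z ^ 1 - s ^ l * YY z ^ 1) ∈ O.nonunits := by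
  have h0 := hl.ne_zero
  obtain ⟨A, hA, -⟩ := ser_XX
  obtain ⟨B, hB, -⟩ := ser_YY
  have hU : ∀ (n : ℕ) (T s : ℂ), HQ 1 (fun τ => X.qq 1 τ ^ (3 * n) *
      (T - XX τ ^ n - s * YY τ ^ n)) (sU A B n T s) := fun n T s =>
    hq_congr (hq_sub (hq_sub (hq_smul T (hq_pow (hq_pow (hq_X 1) 3) n))
      (hq_pow (HQ_mul (hq_X 1) hA) n)) (hq_smul s (hq_pow hB n))) fun τ => by ring
  have aU : ∀ (n : ℕ) (T s : ℂ), A0 fun τ => T - XX τ ^ n - s * YY τ ^ n := fun n T s =>
    ((a0_const T).sub (a0_XX.pow n)).sub ((a0_const s).mul (a0_YY.pow n))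
  obtain ⟨φ, k1, -⟩ := ex_xw
  obtain ⟨ψ, k2, -⟩ := ex_yw
  have aF := (a0_prod (F := fun τ => T - XX τ - s * YY τ) hl h11
    (fun γ hγ τ => by simp only [inv_XX γ hγ τ, inv_YY γ hγ τ])
    (hq_congr (hq_sub (hq_sub (X.hq_const 1 (T - s * 4)) (hq_smul 4 k1)) (hq_smul (s * 8) k2))
      fun τ => by rw [XX, YY]; ring)).sub ((aU l T s).mul (aU 1 (T ^ l) (s ^ l)))
  obtain ⟨c, h3, h4⟩ := hq_down h0 (F := fun τ => X.qq 1 τ ^ (3 * (l + 1)) *
      (∏ i, (T - XX (nz l τ i) - s * YY (nz l τ i)) -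
        (T - XX τ ^ l - s * YY τ ^ l) * (T ^ l - XX τ ^ 1 - s ^ l * YY τ ^ 1)))
    (a := sW A B h0 (zt l) T s)
    (hq_congr (hq_sub (hq_prod Finset.univ fun i _ => hq_nz h0 (hU 1 T s) i)
      (hq_lev h0 (HQ_mul (hU l T s) (hU 1 (T ^ l) (s ^ l))))) fun τ => by
        rw [Finset.prod_mul_distrib, Finset.prod_pow, prod_qq hl h2]
        simp only [pow_one]
        ring)
    fun τ => by
      have e := aF.1 _ T_mem τ
      simp only at e ⊢
      rw [e, X.qq, modular_T_smul, coe_vadd, add_comm _ (τ : ℂ), X.qq]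
      simp [Function.Periodic.qParam, mul_add, Complex.exp_add]
  obtain ⟨ζ, z1, z2⟩ := zt_mem hl hO
  obtain ⟨e, e1, -, -⟩ := rs_div 1 (d := (2 : O))
    (by rw [map_ofNat]; exact_mod_cast rs_ne hl hO Nat.prime_two h2)
  refine span O (by rw [inv_eq_of_mul_eq_one_left (b := 2) e1]; exact e.2) O.nonunits.toAddSubgroup
    (fun a ha b hb => ?_) aF h3 (fun i => ?_) hx hy
  · exact O.mem_nonunits_iff.2 (by
      rw [map_mul]
      exact mul_lt_one_of_lt_of_le (O.mem_nonunits_iff.1 ha) ((O.valuation_le_one_iff b).2 hb))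
  · have := rs_char hl hO
    have h5 := map_sW O.subtype A B h0 ζ T s
    simp only [ValuationSubring.subtype_apply, z1] at h5
    rw [← coeff_expand_mul l h0, h4, ← h5, coeff_map]
    refine rs_zero.1 ?_
    rw [← coeff_map, map_sW, z2, sW_zero A B hl, map_zero]

open Polynomial in
theorem res_infinite (O : ValuationSubring ℂ) : Infinite (IsLocalRing.ResidueField O) := by
  have : IsAlgClosed (IsLocalRing.ResidueField O) := by
    refine IsAlgClosed.of_exists_root _ fun f hf hirr => ?_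
    obtain ⟨g, hg1, hg2, hg3⟩ := lifts_and_degree_eq_and_monic
      (Polynomial.map_surjective (rs O) IsLocalRing.residue_surjective f) hf
    obtain ⟨x, hx⟩ := IsAlgClosed.exists_root (g.map (algebraMap O ℂ)) (by
      rw [hg3.degree_map, hg2]
      exact (degree_pos_of_irreducible hirr).ne')
    obtain ⟨y, rfl⟩ := IsIntegrallyClosed.algebraMap_eq_of_integral (R := O) (K := ℂ) (x := x)
      ⟨g, hg3, by rw [← eval_map]; exact hx⟩
    refine ⟨rs O y, ?_⟩
    rw [IsRoot.def, eval_map, eval₂_at_apply,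
      map_eq_zero_iff _ (IsFractionRing.injective O ℂ)] at hx
    rw [← hg1, eval_map, eval₂_at_apply, hx, map_zero]
  infer_instance

open Classical in
/-- The residue of a number, zero when it is not integral. -/
def rd (O : ValuationSubring ℂ) (x : ℂ) : IsLocalRing.ResidueField O :=
  if h : x ∈ O then rs O ⟨x, h⟩ else 0

theorem rd_coe (x : O) : rd O x = rs O x := dif_pos x.2

theorem rd_eq {x y : ℂ} (hx : x ∈ O) (hy : y ∈ O) : rd O x = rd O y ↔ x - y ∈ O.nonunits := by
  rw [rd, rd, dif_pos hx, dif_pos hy, rs_eq]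

theorem mem_of_prod {ι : Type} [Fintype ι] (x : ι → ℂ) (h : ∀ T : O, ∏ i, (T - x i) ∈ O) (i : ι) :
    x i ∈ O := by
  classical
  have := res_infinite O
  obtain ⟨t, ht⟩ := Infinite.exists_notMem_finset (Finset.univ.image fun j => rd O (x j))
  obtain ⟨T, rfl⟩ := IsLocalRing.residue_surjective t
  have h1 : ∀ j, T - x j ∉ O.nonunits := fun j e => by
    have k : x j ∈ O := by simpa using sub_mem T.2 (O.nonunits_le e)
    exact ht (Finset.mem_image.2 ⟨j, Finset.mem_univ _, ((rd_eq T.2 k).2 e).symm.trans (rd_coe T)⟩)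
  simp only [O.mem_nonunits_iff_or, not_or, not_not] at h1
  have h2 := MulMemClass.mul_mem (h T) (prod_mem (t := Finset.univ.erase i) fun j _ => (h1 j).2)
  rw [← Finset.mul_prod_erase _ _ (Finset.mem_univ i), mul_assoc, ← Finset.prod_mul_distrib,
    Finset.prod_eq_one fun j _ => mul_inv_cancel₀ (h1 j).1, mul_one] at h2
  simpa using sub_mem T.2 h2

open Polynomial in
theorem multiset_eq {k : Type} [Field k] [Infinite k] (s t : Multiset (k × k))
    (h : ∀ T u : k, (s.map fun p => T - p.1 - u * p.2).prod =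
      (t.map fun p => T - p.1 - u * p.2).prod) : s = t := by
  let g : k × k → k[X] := fun p => Polynomial.C p.1 + Polynomial.X * Polynomial.C p.2
  have hg : Function.Injective g := fun p r e => Prod.ext
    (by simpa [g] using congrArg (Polynomial.coeff · 0) e)
    (by simpa [g] using congrArg (Polynomial.coeff · 1) e)
  apply Multiset.map_injective hg
  rw [← roots_multiset_prod_X_sub_C (s.map g), ← roots_multiset_prod_X_sub_C (t.map g)]
  congr 1
  ext1 n
  refine Polynomial.funext fun u => ?_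
  rw [← coe_evalRingHom, ← Polynomial.coeff_map, ← Polynomial.coeff_map]
  congr 1
  refine Polynomial.funext fun T => ?_
  have e : ∀ s : Multiset (k × k), eval T (((s.map g).map fun a =>
      Polynomial.X - Polynomial.C a).prod.map (evalRingHom u)) =
      (s.map fun p => T - p.1 - u * p.2).prod := fun s => by
    rw [Polynomial.map_multiset_prod, eval_multiset_prod, Multiset.map_map, Multiset.map_map,
      Multiset.map_map]
    congr 1
    exact Multiset.map_congr rfl fun p _ => by simp [g, sub_sub, mul_comm u]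
  rw [e, e, h]

end Pool.Agent.Lib.MP_d6ddbd_nt.E11
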