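import Pool.Agent.Lib.MP_d6ddbd_nt.E11.Defs
import Pool.Agent.Lib.MP_9177b7_ag.CM.Lat
import Pool.Agent.Lib.MP_9177b7_ag.CM.Norm

/-!
Cosets of `Γ₀(11)`, the Fricke involution, and the theorem of Liouville on `X₀(11)`.
-/

set_option autoImplicit false

open UpperHalfPlane
open scoped MatrixGroups ModularForm
open Pool.Agent.Lib.MP_9177b7_ag.CM (dn)
open Pool.Agent.Lib.MP_9177b7_ag.CM.Lat (denom_ne)
open Pool.Agent.Lib.MP_9177b7_ag.CM.Norm (coe_up coe_dn)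
open Pool.Agent.Lib.MP_d6ddbd_nt.K (Hol Gro MF QE RatS)

noncomputable section

namespace Pool.Agent.Lib.MP_d6ddbd_nt.E11

namespace Cos

theorem coe_sl (γ : SL(2, ℤ)) (τ : ℍ) : ((γ • τ : ℍ) : ℂ) =
    (((γ 0 0 : ℤ) : ℂ) * τ + (γ 0 1 : ℤ)) / (((γ 1 0 : ℤ) : ℂ) * τ + (γ 1 1 : ℤ)) :=
  Pool.Agent.Lib.MP_9177b7_ag.CM.Lat.coe_smul γ τ

theorem coe_ww (τ : ℍ) : (ww τ : ℂ) = -1 / (11 * τ) := by
  rw [ww, modular_S_smul]
  show (-((up τ : ℍ) : ℂ))⁻¹ = _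
  rw [coe_up (by norm_num), inv_neg, neg_div, one_div]
  norm_num

theorem ww_ww (τ : ℍ) : ww (ww τ) = τ := by
  apply UpperHalfPlane.ext
  have := τ.ne_zero
  rw [coe_ww, coe_ww]
  field_simp

theorem det (γ : SL(2, ℤ)) : γ 0 0 * γ 1 1 - γ 0 1 * γ 1 0 = 1 := by
  have h := γ.det_coe
  rwa [Matrix.det_fin_two] at h

theorem ww_smul (γ : SL(2, ℤ)) (hγ : γ ∈ G0) : ∃ γ' ∈ G0, ∀ τ : ℍ, ww (γ • τ) = γ' • ww τ := by
  obtain ⟨c, hc⟩ := (ZMod.intCast_zmod_eq_zero_iff_dvd _ 11).1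
    (CongruenceSubgroup.Gamma0_mem.1 hγ)
  have hd := det γ
  obtain ⟨δ, e1, e2, e3, e4⟩ : ∃ δ : SL(2, ℤ), δ 0 0 = γ 1 1 ∧ δ 0 1 = -c ∧
      δ 1 0 = -11 * γ 0 1 ∧ δ 1 1 = γ 0 0 := by
    refine ⟨⟨!![γ 1 1, -c; -11 * γ 0 1, γ 0 0], ?_⟩, rfl, rfl, rfl, rfl⟩
    rw [Matrix.det_fin_two_of]
    rw [hc] at hd
    push_cast at hd
    linear_combination hd
  refine ⟨δ, ?_, fun τ => ?_⟩
  · rw [CongruenceSubgroup.Gamma0_mem]
    refine (ZMod.intCast_zmod_eq_zero_iff_dvd _ 11).2 ⟨-γ 0 1, ?_⟩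
    rw [e3]
    push_cast
    ring
  · apply UpperHalfPlane.ext
    have h0 := τ.ne_zero
    have h1 := denom_ne γ τ
    have h2 : ((γ 0 0 : ℤ) : ℂ) * τ + (γ 0 1 : ℤ) ≠ 0 := by
      intro h
      have := (γ • τ).ne_zero
      rw [coe_sl, h, zero_div] at this
      exact this rfl
    rw [coe_sl δ (ww τ), eq_div_iff (denom_ne _ _), coe_ww, coe_ww, coe_sl, e1, e2, e3, e4]
    have hc' : ((γ 1 0 : ℤ) : ℂ) = 11 * c := by exact_mod_cast hc
    rw [hc'] at h1 ⊢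
    push_cast
    field_simp
    ring

theorem rep_some (i : ZMod 11) : rep (some i) 0 0 = 0 ∧ rep (some i) 0 1 = -1 ∧
    rep (some i) 1 0 = 1 ∧ rep (some i) 1 1 = i.val := by
  have h : (rep (some i) : SL(2, ℤ)).1 = !![0, -1; 1, (i.val : ℤ)] := by
    rw [rep, ← zpow_natCast, Matrix.SpecialLinearGroup.coe_mul, ModularGroup.coe_T_zpow,
      ModularGroup.coe_S]
    simp
  refine ⟨?_, ?_, ?_, ?_⟩ <;> simp [h]

theorem mul_10 (a b : SL(2, ℤ)) : (a * b) 1 0 = a 1 0 * b 0 0 + a 1 1 * b 1 0 := by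
  simp [Matrix.mul_apply, Fin.sum_univ_two]

theorem mul_11 (a b : SL(2, ℤ)) : (a * b) 1 1 = a 1 0 * b 0 1 + a 1 1 * b 1 1 := by
  simp [Matrix.mul_apply, Fin.sum_univ_two]

theorem mem_rep (g : SL(2, ℤ)) : g * (rep (idx g))⁻¹ ∈ G0 := by
  have : Fact (Nat.Prime 11) := ⟨by norm_num⟩
  rw [idx]
  split_ifs with h
  · rw [rep, inv_one, mul_one]
    exact CongruenceSubgroup.Gamma0_mem.2 h
  · set i : ZMod 11 := (g 1 1 : ZMod 11) * (g 1 0 : ZMod 11)⁻¹ with hi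
    obtain ⟨-, -, h3, h4⟩ := rep_some i
    rw [CongruenceSubgroup.Gamma0_mem, mul_10, Matrix.SpecialLinearGroup.SL2_inv_expl]
    show ((g 1 0 * rep (some i) 1 1 + g 1 1 * -rep (some i) 1 0 : ℤ) : ZMod 11) = 0
    rw [h3, h4]
    push_cast
    rw [ZMod.natCast_zmod_val, hi, mul_left_comm, mul_inv_cancel₀ h]
    ring

theorem idx_rep (i : Option (ZMod 11)) : idx (rep i) = i := by
  rcases i with _ | i
  · simp [idx, rep]
  · have : Fact (Nat.Prime 11) := ⟨by norm_num⟩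
    obtain ⟨-, -, h3, h4⟩ := rep_some i
    rw [idx, h3, h4]
    simp

theorem idx_mul (γ : SL(2, ℤ)) (hγ : γ ∈ G0) (g : SL(2, ℤ)) : idx (γ * g) = idx g := by
  have : Fact (Nat.Prime 11) := ⟨by norm_num⟩
  have h0 : (γ 1 0 : ZMod 11) = 0 := CongruenceSubgroup.Gamma0_mem.1 hγ
  have h1 : (γ 1 1 : ZMod 11) ≠ 0 := by
    intro h
    have := congrArg (fun x : ℤ => (x : ZMod 11)) (det γ)
    push_cast at this
    rw [h0, h] at this
    simp at this
  rw [idx, idx, mul_10, mul_11]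
  push_cast
  rw [h0, zero_mul, zero_mul, zero_add, zero_add]
  by_cases h : (g 1 0 : ZMod 11) = 0
  · rw [if_pos h, if_pos (by rw [h, mul_zero])]
  · rw [if_neg h, if_neg (mul_ne_zero h1 h), mul_inv, mul_mul_mul_comm, mul_inv_cancel₀ h1,
      one_mul]

theorem rep_smul (i : ZMod 11) (τ : ℍ) : rep (some i) • τ = ww (dn 11 i.val τ) := by
  apply UpperHalfPlane.ext
  obtain ⟨h1, h2, h3, h4⟩ := rep_some i
  rw [coe_sl, h1, h2, h3, h4, coe_ww, coe_dn (by norm_num)]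
  push_cast
  rw [mul_div_cancel₀ _ (by norm_num : (11 : ℂ) ≠ 0)]
  simp

theorem im_dn (i : ℕ) (τ : ℍ) : (dn 11 i τ).im = τ.im / 11 := by
  rw [← coe_im, coe_dn (by norm_num), Complex.div_natCast_im]
  simp

theorem cases {f : ℍ → ℂ} (h : ∀ γ ∈ G0, ∀ τ : ℍ, f (γ • τ) = f τ) (g : SL(2, ℤ)) :
    (∀ τ : ℍ, f (g • τ) = f τ) ∨ ∃ i : ℕ, ∀ τ : ℍ, f (g • τ) = f (ww (dn 11 i τ)) := by
  have e : ∀ τ : ℍ, f (g • τ) = f (rep (idx g) • τ) := fun τ => by
    rw [← h _ (mem_rep g) (rep (idx g) • τ), ← mul_smul, inv_mul_cancel_right]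
  rcases hi : idx g with _ | i
  · refine Or.inl fun τ => ?_
    rw [e, hi, rep, one_smul]
  · refine Or.inr ⟨i.val, fun τ => ?_⟩
    rw [e, hi, rep_smul]

theorem cont_ww : Continuous ww := by
  rw [isEmbedding_coe.continuous_iff]
  have : ((↑) : ℍ → ℂ) ∘ ww = fun τ : ℍ => -1 / (11 * (τ : ℂ)) := funext coe_ww
  rw [this]
  exact continuous_const.div (continuous_const.mul continuous_coe) fun τ =>
    mul_ne_zero (by norm_num) τ.ne_zero

theorem strip {F : ℍ → ℂ} (hc : Continuous F)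
    (hp : ∀ (n : ℤ) (τ : ℍ), F (ModularGroup.T ^ n • τ) = F τ) :
    ∃ M : ℝ, ∀ τ : ℍ, 1 / 11 ≤ τ.im → τ.im ≤ 1 → ‖F τ‖ ≤ M := by
  have hK : IsCompact (((↑) : ℍ → ℂ) ⁻¹' (Set.Icc (0 : ℝ) 1 ×ℂ Set.Icc (1 / 11 : ℝ) 1)) := by
    refine (isEmbedding_coe.isInducing.isCompact_preimage_iff fun z hz => ?_).2
      (isCompact_Icc.reProdIm isCompact_Icc)
    exact ⟨⟨z, lt_of_lt_of_le (by norm_num) hz.2.1⟩, rfl⟩
  obtain ⟨M, hM⟩ := hK.exists_bound_of_continuousOn hc.continuousOn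
  refine ⟨M, fun τ h1 h2 => ?_⟩
  rw [← hp (-⌊τ.re⌋) τ]
  refine hM _ ?_
  rw [Set.mem_preimage, Complex.mem_reProdIm, coe_re, coe_im, ModularGroup.re_T_zpow_smul,
    ModularGroup.im_T_zpow_smul]
  have h3 := Int.floor_le τ.re
  have h4 := Int.lt_floor_add_one τ.re
  push_cast
  exact ⟨⟨by linarith, by linarith⟩, h1, h2⟩

theorem mf (f : ℍ → ℂ) (h : Hol f) (hi : ∀ γ ∈ G0, ∀ τ : ℍ, f (γ • τ) = f τ) (h1 : Gro f)
    (h2 : Gro fun τ => f (ww τ)) : MF G0 f := by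
  refine ⟨h, hi, fun g => ?_⟩
  rcases cases hi g with e | ⟨i, e⟩
  · simpa only [e] using h1
  · simp only [e]
    obtain ⟨C, K, hC⟩ := h2
    obtain ⟨M, hM⟩ := strip (F := fun τ => f (ww τ))
      ((mdifferentiable_iff.2 h).continuous.comp cont_ww) fun n τ => by
        obtain ⟨γ, hγ, e'⟩ := ww_smul (ModularGroup.T ^ n)
          (zpow_mem (CongruenceSubgroup.Gamma0_mem.2 (by simp [ModularGroup.T])) n)
        show f (ww _) = f (ww τ)
        rw [e', hi γ hγ]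
    refine ⟨|C| + |M|, |K|, fun τ hτ => ?_⟩
    have p1 : 1 ≤ Real.exp (|K| * τ.im) := Real.one_le_exp (by positivity)
    have p2 := abs_nonneg C
    have p3 := abs_nonneg M
    rcases le_total 1 (dn 11 i τ).im with h3 | h3
    · refine (hC _ h3).trans ?_
      have p4 : Real.exp (K * (dn 11 i τ).im) ≤ Real.exp (|K| * τ.im) := by
        refine Real.exp_le_exp.2 ?_
        rw [im_dn]
        exact mul_le_mul (le_abs_self K) (by linarith) (by linarith) (abs_nonneg K)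
      exact mul_le_mul (by linarith [le_abs_self C]) p4 (Real.exp_pos _).le (by linarith)
    · refine (hM _ (by rw [im_dn]; linarith) h3).trans ?_
      nlinarith [le_abs_self M]

theorem slash_zero (f : ℍ → ℂ) (γ : SL(2, ℤ)) : f ∣[(0 : ℤ)] γ = fun τ => f (γ • τ) := by
  funext τ
  rw [ModularForm.SL_slash_apply]
  simp

end Cos

/-- A modular function which is bounded at both cusps is constant. -/
theorem liou (f : ℍ → ℂ) (h : Hol f) (hi : Inv f) (h1 : IsBoundedAtImInfty f)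
    (h2 : IsBoundedAtImInfty fun τ => f (ww τ)) : ∃ c, ∀ τ, f τ = c := by
  let F : ModularForm (G0 : Subgroup (GL (Fin 2) ℝ)) 0 :=
    { toFun := f
      slash_action_eq' := by
        rintro _ ⟨γ, hγ, rfl⟩
        exact (Cos.slash_zero f γ).trans (funext (hi γ hγ))
      holo' := mdifferentiable_iff.2 h
      bdd_at_cusps' := fun {c} hc => by
        rw [Subgroup.IsArithmetic.isCusp_iff_isCusp_SL2Z] at hc
        rw [OnePoint.isBoundedAt_iff_forall_SL2Z hc]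
        intro g _
        show IsBoundedAtImInfty (f ∣[(0 : ℤ)] g)
        rw [Cos.slash_zero]
        rcases Cos.cases hi g with e | ⟨i, e⟩
        · simpa only [e] using h1
        · simp only [e]
          obtain ⟨M, A, hM⟩ := isBoundedAtImInfty_iff.1 h2
          refine isBoundedAtImInfty_iff.2 ⟨M, 11 * A, fun τ hτ => hM _ ?_⟩
          rw [Cos.im_dn]
          linarith }
  obtain ⟨c, hc⟩ := ModularForm.eq_const_of_weight_zero F
  exact ⟨c, fun τ => congrFun hc τ⟩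

end Pool.Agent.Lib.MP_d6ddbd_nt.E11
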