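import Pool.Agent.Lib.MP_d6ddbd_nt.E11.Exp
import Pool.Agent.Lib.MP_9177b7_ag.CM.Main

/-!
The Weierstrass model of `X₀(11)`: equation, surjectivity, fibres and Galois equivariance.
-/

set_option autoImplicit false

open UpperHalfPlane Filter Topology PowerSeries Pointwise
open scoped MatrixGroups
open Pool.Agent.Lib.MP_9177b7_ag.CM Pool.Agent.Lib.MP_9177b7_ag.CM.Norm
open Pool.Agent.Lib.MP_d6ddbd_nt.X (fa qq qq_ne Ex hq_congr hq_sub hq_smul hq_X hq_inv hq_hol hq_bdd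
  hq_tendsto)
open ModularForm

noncomputable section

namespace Pool.Agent.Lib.MP_d6ddbd_nt.E11

theorem xf_ww (τ : ℍ) : xf (ww τ) = hm τ ^ 2 + 2 * hm τ - 14 - xf τ := by
  rw [xf, xf, hm_ww, an_ww]; ring

theorem quad (τ : ℍ) : xf τ ^ 2 - (hm τ ^ 2 + 2 * hm τ - 14) * xf τ +
    (16 * hm τ ^ 2 + 153 * hm τ + 367) = 0 := by
  rw [xf]; linear_combination rel1 τ / 4

theorem eqn0 (τ : ℍ) : yf τ ^ 2 + yf τ = xf τ ^ 3 - xf τ ^ 2 - 10 * xf τ - 20 := by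
  rw [yf]; linear_combination -(xf τ - 16) * quad τ

theorem eqn (τ : ℍ) : YY τ ^ 2 = XX τ ^ 3 - 4 * XX τ ^ 2 - 160 * XX τ - 1264 := by
  rw [XX, YY]; linear_combination 64 * eqn0 τ

theorem YY_eq (τ : ℍ) : YY τ = 2 * (hm τ + 1) * (XX τ - 64) - 484 := by
  rw [XX, YY, yf]; ring

theorem hm_of {τ : ℍ} (h : xf τ = 16) : hm τ = -7 := by
  have := quad τ
  rw [h] at this
  linear_combination this / 121

theorem surj_hm (c : ℂ) : ∃ z, hm z = c := by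
  by_contra hne
  have h0 : ∀ z, hm z - c ≠ 0 := fun z e => hne ⟨z, sub_eq_zero.1 e⟩
  obtain ⟨φ, h1, h2⟩ := ex_hm
  have h3 : HQ 1 (fun τ => qq 1 τ * (hm τ - c)) (φ.map (algebraMap ℚ ℂ) - C c * X) :=
    hq_congr (hq_sub h1 (hq_smul c (hq_X 1))) fun τ => by ring
  obtain ⟨b, h4, -⟩ := hq_inv one_pos h3
    (by rw [map_sub, coeff_map, h2 0 (by norm_num)]; simp)
    fun τ => mul_ne_zero (qq_ne 1 τ) (h0 τ)
  have h5 : HQ 1 (fun τ => (hm τ - c)⁻¹) (X * b) :=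
    hq_congr (HQ_mul (hq_X 1) h4) fun τ => by
      have := qq_ne 1 τ
      have := h0 τ
      field_simp
  obtain ⟨a, ha⟩ := liou _ (hq_hol one_pos h5) (fun γ hγ τ => by rw [inv_hm γ hγ])
    (hq_bdd one_pos h5) (by simpa only [hm_ww] using hq_bdd one_pos h5)
  have h6 := hq_tendsto one_pos h5
  rw [funext ha] at h6
  have h7 : a = 0 := by simpa using tendsto_nhds_unique tendsto_const_nhds h6
  exact inv_ne_zero (h0 I) ((ha I).trans h7)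

theorem surj0 {x y : ℂ} (h : y ^ 2 + y = x ^ 3 - x ^ 2 - 10 * x - 20) (hT : ¬ (x = 16 ∧ y = 60)) :
    ∃ z, xf z = x ∧ yf z = y := by
  obtain ⟨c, h1, h2⟩ : ∃ c : ℂ, y = (c + 1) * (x - 16) - 61 ∧
      x ^ 2 - (c ^ 2 + 2 * c - 14) * x + (16 * c ^ 2 + 153 * c + 367) = 0 := by
    by_cases e : x = 16
    · refine ⟨-7, ?_, by rw [e]; ring⟩
      have h3 : (y - 60) * (y + 61) = 0 := by rw [e] at h; linear_combination h
      have h4 := (mul_eq_zero.1 h3).resolve_left fun e' => hT ⟨e, sub_eq_zero.1 e'⟩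
      rw [e]; linear_combination h4
    · have h3 := sub_ne_zero.2 e
      have h1 : y = ((y + 61) / (x - 16) - 1 + 1) * (x - 16) - 61 := by field_simp; ring
      refine ⟨_, h1, mul_left_cancel₀ h3 ?_⟩
      generalize (y + 61) / (x - 16) - 1 = c at h1
      rw [h1] at h
      linear_combination -h
  obtain ⟨z, rfl⟩ := surj_hm c
  have h3 : (x - xf z) * (x - xf (ww z)) = 0 := by
    rw [xf_ww]; linear_combination h2 - quad z
  rcases mul_eq_zero.1 h3 with e | e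
  · exact ⟨z, (sub_eq_zero.1 e).symm, by rw [yf, h1, sub_eq_zero.1 e]⟩
  · exact ⟨ww z, (sub_eq_zero.1 e).symm, by rw [yf, h1, hm_ww, sub_eq_zero.1 e]⟩

theorem surj {x y : ℂ} (h : y ^ 2 = x ^ 3 - 4 * x ^ 2 - 160 * x - 1264)
    (hT : ¬ (x = 64 ∧ y = 484)) : ∃ z, XX z = x ∧ YY z = y := by
  obtain ⟨z, h1, h2⟩ := surj0 (x := x / 4) (y := (y - 4) / 8) (by linear_combination h / 64)
    fun e => hT ⟨by linear_combination 4 * e.1, by linear_combination 8 * e.2⟩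
  exact ⟨z, by rw [XX, h1]; ring, by rw [YY, h2]; ring⟩

theorem ne_T (z : ℍ) : ¬ (XX z = 64 ∧ YY z = 484) := fun e => by
  have := YY_eq z
  rw [e.1, e.2] at this
  norm_num at this

theorem h_of (σ : ℂ →+* ℂ) {z w : ℍ} (hx : XX w = σ (XX z)) (hy : YY w = σ (YY z)) :
    hm w = σ (hm z) ∧ an w = σ (an z) := by
  have h1 : xf w = σ (xf z) := by
    simp only [XX, map_mul, map_ofNat] at hx
    linear_combination hx / 4
  have h2 : hm w = σ (hm z) := by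
    by_cases e : xf z = 16
    · rw [hm_of e, hm_of (by rw [h1, e, map_ofNat]), map_neg, map_ofNat]
    · have e' : σ (xf z) - 16 ≠ 0 := fun k => e (σ.injective (by rw [map_ofNat, sub_eq_zero.1 k]))
      simp only [YY, yf, map_mul, map_ofNat, map_add, map_sub, map_one, h1] at hy
      exact mul_right_cancel₀ e' (by linear_combination hy / 8)
  refine ⟨h2, ?_⟩
  simp only [xf, map_mul, map_ofNat, map_add, map_sub, map_div₀, map_pow, h2] at h1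
  linear_combination 2 * h1

theorem of_h (σ : ℂ →+* ℂ) {z w : ℍ} (h1 : hm w = σ (hm z)) (h2 : an w = σ (an z)) :
    XX w = σ (XX z) ∧ YY w = σ (YY z) := by
  constructor <;> simp [XX, YY, yf, xf, h1, h2, map_ofNat]

/-! ### Pairs of lattices -/

/-- The pair `(L, M)` is given by the point `z` and the scale `c`. -/
def Pr (L M : Submodule ℤ ℂ) (c : ℂ) (z : ℍ) : Prop :=
  c ≠ 0 ∧ L = c • sp z 1 ∧ M = c • sp z (1 / 11)

theorem l7' {z w : ℍ} {c : ℂ} (h : sp w 1 = c • sp z 1) :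
    ∃ γ : SL(2, ℤ), w = γ • z ∧ c * fa γ z = 1 := by
  rw [Lat.smul_sp] at h
  obtain ⟨a, b, h1⟩ := Lat.mem_sp.1 (h ▸ Lat.left_mem (w : ℂ) 1)
  obtain ⟨e, d, h2⟩ := Lat.mem_sp.1 (h ▸ Lat.right_mem (w : ℂ) 1)
  obtain ⟨p, q, h3⟩ := Lat.mem_sp.1 (h.symm ▸ Lat.left_mem (c * (z : ℂ)) (c * 1))
  obtain ⟨r, s, h4⟩ := Lat.mem_sp.1 (h.symm ▸ Lat.right_mem (c * (z : ℂ)) (c * 1))
  obtain ⟨k1, k2⟩ := Lat.int_indep w (a * p + b * r) (a * q + b * s) 1 0 (by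
    push_cast
    linear_combination h1 + a * h3 + b * h4)
  obtain ⟨k3, k4⟩ := Lat.int_indep w (e * p + d * r) (e * q + d * s) 0 1 (by
    push_cast
    linear_combination h2 + e * h3 + d * h4)
  have hdet : (a * d - b * e) * (p * s - q * r) = 1 := by
    have : (a * d - b * e) * (p * s - q * r) =
        (a * p + b * r) * (e * q + d * s) - (a * q + b * s) * (e * p + d * r) := by ring
    rw [this, k1, k2, k3, k4]
    norm_num
  have key : (w : ℂ) * (e * z + d) = a * z + b := by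
    linear_combination (-((e : ℂ) * z + d)) * h1 + ((a : ℂ) * z + b) * h2
  have hre := congrArg Complex.re key
  have him := congrArg Complex.im key
  simp at hre him
  have hpos : w.im * ((e * z.re + d) ^ 2 + (e * z.im) ^ 2) = (a * d - b * e) * z.im := by
    linear_combination (e * z.re + d) * him - (e * z.im) * hre
  have hd1 : a * d - b * e = 1 := by
    rcases Int.eq_one_or_neg_one_of_mul_eq_one hdet with h5 | h5
    · exact h5
    · exfalso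
      have h6 : ((a : ℝ) * d - b * e) = -1 := by exact_mod_cast h5
      rw [h6] at hpos
      have h7 : 0 ≤ w.im * ((e * z.re + d) ^ 2 + (e * z.im) ^ 2) :=
        mul_nonneg w.im_pos.le (by positivity)
      have := z.im_pos
      linarith
  let γ : SL(2, ℤ) := ⟨!![a, b; e, d], by rw [Matrix.det_fin_two_of]; exact hd1⟩
  refine ⟨γ, ?_, ?_⟩
  · apply UpperHalfPlane.ext
    rw [Lat.coe_smul, eq_div_iff (Lat.denom_ne γ z)]
    exact key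
  · change c * ((e : ℂ) * z + d) = 1
    linear_combination h2

theorem Pr.eq {L M : Submodule ℤ ℂ} {c c' : ℂ} {z w : ℍ} (h : Pr L M c z) (h' : Pr L M c' w) :
    ∃ γ ∈ G0, w = γ • z ∧ c' = c * fa γ z := by
  have k : ∀ y : ℂ, c • sp z y = c' • sp w y → sp w y = (c'⁻¹ * c) • sp z y := fun y e => by
    rw [mul_smul, e, smul_smul, inv_mul_cancel₀ h'.1, one_smul]
  obtain ⟨γ, h1, h2⟩ := l7' (k 1 (h.2.1.symm.trans h'.2.1))
  have h3 := k _ (h.2.2.symm.trans h'.2.2)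
  obtain ⟨x, hx, h4⟩ := Lat.mem_smul.1 (h3 ▸ Lat.right_mem (w : ℂ) (1 / 11))
  obtain ⟨a, b, rfl⟩ := Lat.mem_sp.1 hx
  have h5 := (Lat.int_indep z (γ 1 0) (γ 1 1) (11 * a) b (by
    push_cast
    linear_combination (11 * (a * z + b * (1 / 11))) * h2 - 11 * fa γ z * h4)).1
  refine ⟨γ, ?_, h1, ?_⟩
  · rw [CongruenceSubgroup.Gamma0_mem, h5]
    push_cast
    rw [show (11 : ZMod 11) = 0 from rfl, zero_mul]
  · have := h'.1
    field_simp at h2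
    exact h2.symm

theorem sp_up (z : ℍ) : sp z (1 / 11) = (1 / 11 : ℂ) • sp (up z) 1 := by
  rw [Lat.smul_sp, coe_up']
  congr 1 <;> ring

theorem Pr.smul {L M : Submodule ℤ ℂ} {c : ℂ} {z : ℍ} (h : Pr L M c z) {γ : SL(2, ℤ)}
    (hγ : γ ∈ G0) : Pr L M (c * fa γ z) (γ • z) := by
  obtain ⟨δ, -, h2⟩ := up_smul hγ
  refine ⟨mul_ne_zero h.1 (Lat.denom_ne γ z), by rw [h.2.1, mul_smul, ← Lat.sp_smul], ?_⟩
  rw [h.2.2, mul_smul, sp_up, sp_up, (h2 z).1, smul_comm (fa γ z), ← (h2 z).2, ← Lat.sp_smul]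

theorem Pr.scale {L M : Submodule ℤ ℂ} {c d : ℂ} {z : ℍ} (h : Pr L M c z) (hd : d ≠ 0) :
    Pr (d • L) (d • M) (d * c) z :=
  ⟨mul_ne_zero hd h.1, by rw [h.2.1, mul_smul], by rw [h.2.2, mul_smul]⟩

theorem Pr.ww {L M : Submodule ℤ ℂ} {c : ℂ} {z : ℍ} (h : Pr L M c z) :
    Pr M ((1 / 11 : ℂ) • L) (c * z) (ww z) := by
  have h0 := z.ne_zero
  refine ⟨mul_ne_zero h.1 h0, ?_, ?_⟩
  · rw [h.2.2, mul_smul, Lat.smul_sp z, coe_ww, sp_comm, ← Lat.sp_neg]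
    congr 2
    · field_simp
    · ring
  · rw [h.2.1, mul_smul, smul_comm, Lat.smul_sp z, Lat.smul_sp (1 / 11), coe_ww, sp_comm,
      ← Lat.sp_neg]
    congr 2
    · field_simp
    · ring

theorem Pr.lat {L M : Submodule ℤ ℂ} {c : ℂ} {z : ℍ} (h : Pr L M c z) : IsLat L ∧ IsLat M :=
  ⟨h.2.1 ▸ Lat.l2 _ _ (Lat.l1 z) h.1,
    h.2.2 ▸ Lat.l2 _ _ (sp_up z ▸ Lat.l2 _ _ (Lat.l1 _) (by norm_num)) h.1⟩

theorem exists_nrm (z : ℍ) : ∃ L M s, Pr L M s z ∧ g2 L = 4 / 3 * cA z ∧ g3 L = 8 / 27 * cC z ∧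
    g2 M = 4 / 3 * 11 ^ 4 * cB z ∧ g3 M = 8 / 27 * 11 ^ 6 * cD z := by
  have hp : (Real.pi : ℂ) ≠ 0 := by simp
  have hH := Hh_ne z
  obtain ⟨s, hs⟩ := IsAlgClosed.exists_pow_nat_eq ((Real.pi : ℂ) ^ 2 * Hh z) two_pos
  have h0 : s ≠ 0 := fun e => mul_ne_zero (pow_ne_zero 2 hp) hH (by rw [← hs, e]; simp)
  have h : (1 / 11 : ℂ) ≠ 0 := by norm_num
  refine ⟨_, _, s, ⟨h0, rfl, rfl⟩, ?_⟩
  rw [sp_up, hyp.g2_smul _ h0, hyp.g2_smul _ h0, hyp.g3_smul _ h0, hyp.g3_smul _ h0,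
    hyp.g2_smul _ h, hyp.g3_smul _ h, Eis.g2_eq, Eis.g2_eq, Eis.g3_eq, Eis.g3_eq,
    show s ^ 4 = (s ^ 2) ^ 2 by ring, show s ^ 6 = (s ^ 2) ^ 3 by ring, hs, cA, cB, cC, cD]
  refine ⟨?_, ?_, ?_, ?_⟩ <;> field_simp

theorem conj_of (σ : ℂ →+* ℂ) {z w : ℍ} (h1 : hm w = σ (hm z)) (h2 : an w = σ (an z)) :
    ∃ L M s L' M' s', Pr L M s z ∧ Pr L' M' s' w ∧ Conj σ L L' ∧ Conj σ M M' := by
  obtain ⟨L, M, s, a0, a1, a2, a3, a4⟩ := exists_nrm z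
  obtain ⟨L', M', s', b0, b1, b2, b3, b4⟩ := exists_nrm w
  refine ⟨L, M, s, L', M', s', a0, b0, ⟨a0.lat.1, b0.lat.1, ?_, ?_⟩, a0.lat.2, b0.lat.2, ?_, ?_⟩
  · simp [a1, b1, cA_eq, h1, h2, map_ofNat]
  · simp [a2, b2, cC_eq, h1, h2, map_ofNat]
  · simp [a3, b3, cB_eq, h1, h2, map_ofNat]
  · simp [a4, b4, cD_eq, h1, h2, map_ofNat]

theorem inj {z w : ℍ} (hx : XX w = XX z) (hy : YY w = YY z) : ∃ γ ∈ G0, w = γ • z := by
  obtain ⟨h1, h2⟩ := h_of (RingHom.id ℂ) hx hy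
  obtain ⟨L, M, s, L', M', s', a, b, c1, c2⟩ := conj_of (RingHom.id ℂ) h1 h2
  obtain rfl := hyp.conj_unique c1 ⟨c1.1, c1.1, rfl, rfl⟩
  obtain rfl := hyp.conj_unique c2 ⟨c2.1, c2.1, rfl, rfl⟩
  obtain ⟨γ, h3, h4, -⟩ := a.eq b
  exact ⟨γ, h3, h4⟩

theorem equiv (σ : ℂ →+* ℂ) {L M L' M' : Submodule ℤ ℂ} {c c' : ℂ} {z w : ℍ} (h : Pr L M c z)
    (h' : Pr L' M' c' w) (c1 : Conj σ L L') (c2 : Conj σ M M') :
    XX w = σ (XX z) ∧ YY w = σ (YY z) := by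
  obtain ⟨u, eX, eY⟩ := surj (x := σ (XX z)) (y := σ (YY z))
    (by simpa [map_ofNat] using congrArg σ (eqn z))
    fun e => ne_T z ⟨σ.injective (by rw [e.1, map_ofNat]), σ.injective (by rw [e.2, map_ofNat])⟩
  obtain ⟨h1, h2⟩ := h_of σ eX eY
  obtain ⟨A, B, s, A', B', s', a, b, d1, d2⟩ := conj_of σ h1 h2
  have h0 : s * c⁻¹ ≠ 0 := mul_ne_zero a.1 (inv_ne_zero h.1)
  have e1 : A = (s * c⁻¹) • L := by rw [a.2.1, h.2.1, smul_smul, inv_mul_cancel_right₀ h.1]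
  have e2 : B = (s * c⁻¹) • M := by rw [a.2.2, h.2.2, smul_smul, inv_mul_cancel_right₀ h.1]
  obtain rfl := hyp.conj_unique d1 (e1 ▸ hyp.conj_smul c1 h0)
  obtain rfl := hyp.conj_unique d2 (e2 ▸ hyp.conj_smul c2 h0)
  obtain ⟨γ, h3, rfl, -⟩ := (h'.scale ((map_ne_zero σ).2 h0)).eq b
  exact ⟨by rw [← eX, inv_XX γ h3], by rw [← eY, inv_YY γ h3]⟩

end Pool.Agent.Lib.MP_d6ddbd_nt.E11
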