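import Pool.Agent.Lib.MP_d6ddbd_nt.X.Exp
import Pool.Agent.Lib.MP_02f36d_nt.Rat

/-!
Modular functions on `X₀(11)` built from `E₂`, `E₄` and the Dedekind eta function.
-/

set_option autoImplicit false

open UpperHalfPlane
open scoped MatrixGroups
open Pool.Agent.Lib.MP_d6ddbd_nt.K (Hol Gro MF QE RatS)
open Pool.Agent.Lib.MP_9177b7_ag.CM (dn)

noncomputable section

namespace Pool.Agent.Lib.MP_d6ddbd_nt.E11

abbrev G0 : Subgroup SL(2, ℤ) := CongruenceSubgroup.Gamma0 11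

/-- The point `11 τ`. -/
abbrev up (τ : ℍ) : ℍ := Pool.Agent.Lib.MP_9177b7_ag.CM.up 11 τ

/-- The Fricke involution `τ ↦ -1 / (11 τ)`. -/
def ww (τ : ℍ) : ℍ := ModularGroup.S • up τ

/-- The eta quotient with divisor `5 (0) - 5 (∞)`. -/
def tf (τ : ℍ) : ℂ := (ModularForm.eta τ / ModularForm.eta (11 * (τ : ℂ))) ^ 12

/-- The Eisenstein series of weight two and level `11`. -/
def e2 (τ : ℍ) : ℂ := 11 * EisensteinSeries.E2 (up τ) - EisensteinSeries.E2 τ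

/-- The newform of weight two and level `11`. -/
def Hh (τ : ℍ) : ℂ := (ModularForm.eta τ * ModularForm.eta (11 * (τ : ℂ))) ^ 2

/-- The Hauptmodul `q⁻¹ + 17 q + 46 q ^ 2 + ⋯` of the Fricke group of level `11`. -/
def hm (τ : ℍ) : ℂ := e2 τ / (10 * Hh τ) - 22 / 5

/-- The function `q⁻² + 2 q⁻¹ - 12 - ⋯`, which changes sign under the Fricke involution. -/
def an (τ : ℍ) : ℂ := (121 * ModularForm.E₄ (up τ) - ModularForm.E₄ τ) / (120 * Hh τ ^ 2)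

/-- The coordinate `q⁻² + 2 q⁻¹ + 4 + ⋯` of the minimal model. -/
def xf (τ : ℍ) : ℂ := (hm τ ^ 2 + 2 * hm τ + an τ) / 2 - 7

/-- The coordinate `q⁻³ + 3 q⁻² + 7 q⁻¹ + 12 + ⋯` of the minimal model. -/
def yf (τ : ℍ) : ℂ := (hm τ + 1) * (xf τ - 16) - 61

def XX (τ : ℍ) : ℂ := 4 * xf τ

def YY (τ : ℍ) : ℂ := 8 * yf τ + 4

/-- Representatives of the cosets of `Γ₀(11)`. -/
def rep : Option (ZMod 11) → SL(2, ℤ)
  | none => 1
  | some i => ModularGroup.S * ModularGroup.T ^ i.val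

/-- The coset of a matrix. -/
def idx (g : SL(2, ℤ)) : Option (ZMod 11) :=
  if (g 1 0 : ZMod 11) = 0 then none else some ((g 1 1 : ZMod 11) * (g 1 0 : ZMod 11)⁻¹)

/-- Invariance under `Γ₀(11)`. -/
def Inv (f : ℍ → ℂ) : Prop := ∀ γ ∈ G0, ∀ τ : ℍ, f (γ • τ) = f τ

end Pool.Agent.Lib.MP_d6ddbd_nt.E11
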