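import Pool.Agent.Lib.MP_d6ddbd_nt.E11.Law

/-!
Expansions of the functions on `X₀(11)`, and the relations between them.
-/

set_option autoImplicit false

open UpperHalfPlane Filter Topology PowerSeries
open scoped MatrixGroups
open Pool.Agent.Lib.MP_9177b7_ag.CM Pool.Agent.Lib.MP_9177b7_ag.CM.Norm
open Pool.Agent.Lib.MP_d6ddbd_nt.K (Hol Gro MF QE RatS)
open Pool.Agent.Lib.MP_d6ddbd_nt.X (fa E4_smul E6_smul Delta_smul qq qq_ne Ex pe pe_ne eta_eq qq_24
  ex_E2 ex_E4 ex_ip2 ex_ip6 ex_p2 ex_p6)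
open ModularForm EisensteinSeries

noncomputable section

namespace Pool.Agent.Lib.MP_d6ddbd_nt.E11

variable {F G : ℍ → ℂ} {m n N : ℕ} {k l : List ℚ} {a : PowerSeries ℂ}

theorem qq_upl {p : ℕ} (hp : p ≠ 0) (h : ℝ) (τ : ℍ) :
    qq h (MP_9177b7_ag.CM.up p τ) = qq h τ ^ p := by
  rw [qq, qq, coe_up hp, Function.Periodic.qParam, Function.Periodic.qParam,
    ← Complex.exp_nat_mul]
  congr 1
  ring

theorem hq_upl {p : ℕ} (hp : p ≠ 0) {h : ℝ} (H : HQ h F a) :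
    HQ h (fun τ => F (MP_9177b7_ag.CM.up p τ)) (expand p hp a) := fun τ => by
  apply hasSum_expand
  have := H (MP_9177b7_ag.CM.up p τ)
  rwa [show Function.Periodic.qParam h ((MP_9177b7_ag.CM.up p τ : ℍ) : ℂ) = qq h τ ^ p from
    qq_upl hp h τ] at this

theorem ex_up (H : Ex 0 N F k) (hN : N ≤ 11) : Ex 0 N (fun τ => F (up τ)) [k.getD 0 0] := by
  obtain ⟨φ, h1, h2⟩ := H
  refine ⟨expand 11 (by norm_num) φ, ?_, fun i hi => ?_⟩
  · rw [map_expand]
    simpa using hq_upl (F := F) (p := 11) (by norm_num) (by simpa using h1)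
  · cases i with
    | zero => simpa using h2 0 hi
    | succ i =>
      rw [coeff_expand_of_not_dvd _ _ _ (Nat.not_dvd_of_pos_of_lt (by omega) (by omega))]
      simp

theorem ex_down (H : Ex m (m + 1) F []) : Ex 0 1 F [] := by
  induction m with
  | zero => exact H
  | succ m ih =>
    obtain ⟨φ, h1, h2⟩ := H
    exact ih (X.Ex.down ⟨φ, h1, fun i hi => by rw [h2 i hi]; cases i <;> rfl⟩)

theorem zero_of (H : Ex m (m + 1) F []) (hi : Inv F)
    (hw : IsBoundedAtImInfty fun τ => F (ww τ)) (τ : ℍ) : F τ = 0 := by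
  have H0 := ex_down H
  obtain ⟨c, hc⟩ := liou F H.hol hi H0.bdd hw
  have h1 := H0.tendsto
  rw [funext hc] at h1
  rw [hc]
  simpa using tendsto_nhds_unique tendsto_const_nhds h1

theorem zero_of' (H : Ex m (m + 1) F []) (hi : Inv F) {ε : ℂ}
    (hw : ∀ τ, F (ww τ) = ε * F τ) (τ : ℍ) : F τ = 0 :=
  zero_of H hi (by rw [funext hw]; exact (ex_down H).bdd.const_mul_left ε) τ

theorem eta_up (τ : ℍ) : eta (11 * (τ : ℂ)) = qq 24 τ ^ 11 * pe (up τ) := by
  rw [← coe_up', eta_eq, qq_upl (by norm_num)]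

theorem Hh_eq (τ : ℍ) : Hh τ = qq 1 τ * (pe τ ^ 2 * pe (up τ) ^ 2) := by
  rw [Hh, eta_up, eta_eq, ← qq_24]
  ring

theorem tf_eq (τ : ℍ) : qq 1 τ ^ 5 * tf τ = (pe τ ^ 6) ^ 2 * ((pe (up τ))⁻¹ ^ 6) ^ 2 := by
  have := qq_ne 24 τ
  have := pe_ne (up τ)
  rw [tf, eta_up, eta_eq, ← qq_24]
  field_simp

theorem ex_E6 : Ex 0 4 E₆ [1, -504, -16632, -122976] := by
  refine ⟨Kron.e6.map (Int.castRingHom ℚ), ?_, ?_⟩
  · have e : (Kron.e6.map (Int.castRingHom ℚ)).map (algebraMap ℚ ℂ) =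
        Kron.e6.map (Int.castRingHom ℂ) := by ext; simp
    rw [e, Kron.map_e6]
    simpa using HQ_form E₆
  · simp only [coeff_map, Kron.e6, coeff_mk]
    decide +kernel

theorem ex_iH : Ex 1 6 (fun τ => (Hh τ)⁻¹) [1, 2, 5, 10, 20, 36] := by
  refine ((ex_ip2.mul (ex_up ex_ip2 le_rfl)).congr (by norm_num) (by decide +kernel)
    fun _ => rfl).shift fun τ => ?_
  have := qq_ne 1 τ
  have := pe_ne τ
  have := pe_ne (up τ)
  rw [Hh_eq, pow_zero]
  field_simp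

theorem ex_iH2 : Ex 2 6 (fun τ => (Hh τ)⁻¹ ^ 2) [1, 4, 14, 40, 105, 252] :=
  (ex_iH.mul ex_iH).congr le_rfl (by decide +kernel) fun τ => by ring

theorem ex_iH3 : Ex 3 4 (fun τ => (Hh τ)⁻¹ ^ 3) [1, 6, 27, 98] :=
  (ex_iH2.mul ex_iH).congr (by norm_num) (by decide +kernel) fun τ => by ring

theorem ex_tf : Ex 5 1 tf [1] :=
  (((ex_p6.mul ex_p6).mul ((ex_up ex_ip6 le_rfl).mul (ex_up ex_ip6 le_rfl))).congr (by norm_num)
    (by decide +kernel) fun _ => rfl).shift fun τ => by rw [tf_eq]; ring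

theorem ex_e2 : Ex 0 11 e2 [10, 24, 72, 96, 168, 144, 288, 192, 360, 312, 432] :=
  (((ex_up ex_E2 le_rfl).smul 11).add (ex_E2.smul (-1))).congr le_rfl (by decide +kernel)
    fun τ => by rw [e2]; push_cast; ring

theorem ex_hm : Ex 1 6 hm [1, 0, 17, 46, 116, 252] :=
  ((((ex_e2.mono (by norm_num)).mul ex_iH).smul (1 / 10)).add
    (X.Ex.const 6 (-22 / 5)).pad).congr le_rfl (by decide +kernel)
    fun τ => by rw [hm]; push_cast; ring

/-- The four Eisenstein quotients. -/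
def cA (τ : ℍ) : ℂ := E₄ τ / Hh τ ^ 2

def cB (τ : ℍ) : ℂ := E₄ (up τ) / Hh τ ^ 2

def cC (τ : ℍ) : ℂ := E₆ τ / Hh τ ^ 3

def cD (τ : ℍ) : ℂ := E₆ (up τ) / Hh τ ^ 3

theorem ex_cA : Ex 2 6 cA [1, 244, 3134, 18760, 84345, 306252] :=
  ((ex_E4.mono (by norm_num)).mul ex_iH2).congr le_rfl (by decide +kernel)
    fun τ => by rw [cA]; ring

theorem ex_cB : Ex 2 6 cB [1, 4, 14, 40, 105, 252] :=
  (((ex_up ex_E4 le_rfl).mono (by norm_num)).mul ex_iH2).congr le_rfl (by decide +kernel)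
    fun τ => by rw [cB]; ring

theorem ex_cC : Ex 3 4 cC [1, -498, -19629, -236278] :=
  (ex_E6.mul ex_iH3).congr le_rfl (by decide +kernel) fun τ => by rw [cC]; ring

theorem ex_cD : Ex 3 4 cD [1, 6, 27, 98] :=
  ((ex_up ex_E6 (by norm_num)).mul ex_iH3).congr le_rfl (by decide +kernel)
    fun τ => by rw [cD]; ring

theorem an_eq (τ : ℍ) : an τ = (121 * cB τ - cA τ) / 120 := by
  rw [an, cA, cB]; ring

theorem ex_an : Ex 2 6 an [1, 2, -12, -116, -597, -2298] :=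
  ((ex_cB.smul (121 / 120)).add (ex_cA.smul (-1 / 120))).congr le_rfl (by decide +kernel)
    fun τ => by rw [an_eq]; push_cast; ring

theorem ex_h2 : Ex 2 6 (fun τ => hm τ ^ 2) [1, 0, 34, 92, 521, 2068] :=
  (ex_hm.mul ex_hm).congr le_rfl (by decide +kernel) fun τ => by ring

theorem ex_h3 : Ex 3 6 (fun τ => hm τ ^ 3) [1, 0, 51, 138, 1215, 5448] :=
  (ex_h2.mul ex_hm).congr le_rfl (by decide +kernel) fun τ => by ring

theorem ex_h4 : Ex 4 6 (fun τ => hm τ ^ 4) [1, 0, 68, 184, 2198, 10392] :=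
  (ex_h2.mul ex_h2).congr le_rfl (by decide +kernel) fun τ => by ring

theorem inv_cA : Inv cA := fun γ hγ τ => by
  have h0 : fa γ τ ≠ 0 := Lat.denom_ne γ τ
  have := Hh_ne τ
  rw [cA, cA, E4_smul, Hh_smul hγ]
  field_simp

theorem inv_cB : Inv cB := fun γ hγ τ => by
  have h0 : fa γ τ ≠ 0 := Lat.denom_ne γ τ
  have := Hh_ne τ
  rw [cB, cB, E4_up hγ, Hh_smul hγ]
  field_simp

theorem inv_cC : Inv cC := fun γ hγ τ => by
  have h0 : fa γ τ ≠ 0 := Lat.denom_ne γ τ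
  have := Hh_ne τ
  rw [cC, cC, E6_smul, Hh_smul hγ]
  field_simp

theorem inv_cD : Inv cD := fun γ hγ τ => by
  have h0 : fa γ τ ≠ 0 := Lat.denom_ne γ τ
  have := Hh_ne τ
  rw [cD, cD, E6_up hγ, Hh_smul hγ]
  field_simp

theorem cA_ww (τ : ℍ) : cA (ww τ) = 121 * cB τ ∧ 121 * cB (ww τ) = cA τ := by
  have := τ.ne_zero
  have := Hh_ne τ
  rw [cA, cB, cA, cB, (form_ww E₄ τ).1, (form_ww E₄ τ).2, Hh_ww]
  constructor <;> field_simp <;> ring

theorem cC_ww (τ : ℍ) : cC (ww τ) = -1331 * cD τ ∧ -1331 * cD (ww τ) = cC τ := by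
  have := τ.ne_zero
  have := Hh_ne τ
  rw [cC, cD, cC, cD, (form_ww E₆ τ).1, (form_ww E₆ τ).2, Hh_ww]
  constructor <;> field_simp <;> ring

theorem rel1 (τ : ℍ) :
    an τ ^ 2 = hm τ ^ 4 + 4 * hm τ ^ 3 - 88 * hm τ ^ 2 - 668 * hm τ - 1272 := by
  have h := (((((ex_an.mul ex_an).add (ex_h4.smul (-1))).add (ex_h3.pad.smul (-4))).add
    (ex_h2.pad.pad.smul 88)).add (ex_hm.pad.pad.pad.smul 668)).add
    (X.Ex.const 6 1272).pad.pad.pad.pad
  have := zero_of' (m := 4) (h.congr (by norm_num) (by decide +kernel) fun _ => rfl)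
    (fun γ hγ τ => by simp only [inv_hm γ hγ, inv_an γ hγ]) (ε := 1)
    (fun τ => by rw [hm_ww, an_ww]; ring) τ
  push_cast at this
  linear_combination this

theorem rel2 (τ : ℍ) : cA τ + 121 * cB τ = 122 * hm τ ^ 2 + 728 * hm τ + 680 := by
  have h := (((ex_cA.add (ex_cB.smul 121)).add (ex_h2.smul (-122))).add
    (ex_hm.pad.smul (-728))).add (X.Ex.const 6 (-680)).pad.pad
  have := zero_of' (m := 2) (h.congr (by norm_num) (by decide +kernel) fun _ => rfl)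
    (fun γ hγ τ => by simp only [inv_hm γ hγ, inv_cA γ hγ, inv_cB γ hγ]) (ε := 1)
    (fun τ => by rw [hm_ww]; push_cast; linear_combination (cA_ww τ).1 + (cA_ww τ).2) τ
  push_cast at this
  linear_combination this

theorem rel3 (τ : ℍ) : cC τ - 1331 * cD τ =
    -1330 * hm τ ^ 3 - 8484 * hm τ ^ 2 + 12264 * hm τ + 105280 := by
  have h := ((((ex_cC.add (ex_cD.smul (-1331))).add ((ex_h3.mono (by norm_num)).smul 1330)).add
    ((ex_h2.pad.mono (by norm_num)).smul 8484)).add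
    ((ex_hm.pad.pad.mono (by norm_num)).smul (-12264))).add (X.Ex.const 4 (-105280)).pad.pad.pad
  have := zero_of' (m := 3) (h.congr le_rfl (by decide +kernel) fun _ => rfl)
    (fun γ hγ τ => by simp only [inv_hm γ hγ, inv_cC γ hγ, inv_cD γ hγ]) (ε := 1)
    (fun τ => by rw [hm_ww]; push_cast; linear_combination (cC_ww τ).1 + (cC_ww τ).2) τ
  push_cast at this
  linear_combination this

theorem rel4 (τ : ℍ) : cC τ + 1331 * cD τ = an τ * (1332 * hm τ + 4824) := by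
  have h := ((ex_cC.add (ex_cD.smul 1331)).add
    (((ex_an.mul ex_hm).mono (by norm_num)).smul (-1332))).add
    ((ex_an.pad.mono (by norm_num)).smul (-4824))
  have := zero_of' (m := 3) (h.congr le_rfl (by decide +kernel) fun _ => rfl)
    (fun γ hγ τ => by simp only [inv_hm γ hγ, inv_an γ hγ, inv_cC γ hγ, inv_cD γ hγ]) (ε := -1)
    (fun τ => by rw [hm_ww, an_ww]; push_cast; linear_combination (cC_ww τ).1 - (cC_ww τ).2) τ
  push_cast at this
  linear_combination this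

theorem cA_eq (τ : ℍ) : cA τ = 61 * hm τ ^ 2 + 364 * hm τ + 340 - 60 * an τ := by
  rw [an_eq]; linear_combination rel2 τ / 2

theorem cB_eq (τ : ℍ) : cB τ = (61 * hm τ ^ 2 + 364 * hm τ + 340 + 60 * an τ) / 121 := by
  rw [an_eq]; linear_combination rel2 τ / 242

theorem cC_eq (τ : ℍ) : cC τ = -665 * hm τ ^ 3 - 4242 * hm τ ^ 2 + 6132 * hm τ + 52640 +
    an τ * (666 * hm τ + 2412) := by
  linear_combination rel3 τ / 2 + rel4 τ / 2

theorem cD_eq (τ : ℍ) : cD τ = (665 * hm τ ^ 3 + 4242 * hm τ ^ 2 - 6132 * hm τ - 52640 +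
    an τ * (666 * hm τ + 2412)) / 1331 := by
  linear_combination rel4 τ / 2662 - rel3 τ / 2662

theorem tf_rel (τ : ℍ) : 2 * tf τ = hm τ ^ 5 - 12 * hm τ ^ 4 - 31 * hm τ ^ 3 + 498 * hm τ ^ 2 +
    220 * hm τ - 2638 + an τ * (hm τ ^ 3 - 14 * hm τ ^ 2 + 43 * hm τ + 10) := by
  have e : tf τ = (cA τ ^ 3 - cC τ ^ 2) / 1728 := by
    have := Hh_ne τ
    rw [tf_Hh, discriminant_eq_E₄_cube_sub_E₆_sq, cA, cC]
    field_simp
  rw [e, cA_eq, cC_eq]
  linear_combination (10800 * (61 * hm τ ^ 2 + 364 * hm τ + 340) - (666 * hm τ + 2412) ^ 2 -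
    216000 * an τ) / 864 * rel1 τ

theorem jH_eq (τ : ℍ) : jH τ = cA τ ^ 3 / tf τ := by
  have := Hh_ne τ
  have := discriminant_ne_zero τ
  rw [tf_Hh, jH, cA]
  field_simp

theorem ex_xf : Ex 2 6 xf [1, 2, 4, 5, 8, 1] :=
  ((((ex_h2.add ex_an).add (ex_hm.pad.smul 2)).smul (1 / 2)).add
    (X.Ex.const 6 (-7)).pad.pad).congr le_rfl (by decide +kernel)
    fun τ => by rw [xf]; push_cast; ring

theorem ex_xw : Ex 0 4 (fun τ => xf (ww τ)) [16, 121, 605, 2299] :=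
  (((((ex_h2.add (ex_an.smul (-1))).add (ex_hm.pad.smul 2)).smul (1 / 2)).add
    (X.Ex.const 6 (-7)).pad.pad).congr le_rfl
    (by decide +kernel) fun τ => by rw [xf, hm_ww, an_ww]; push_cast; ring).down.down

theorem ex_yf : Ex 3 4 yf [1, 3, 7, 12] :=
  (((ex_hm.add (X.Ex.const 6 1).pad).mul (ex_xf.add (X.Ex.const 6 (-16)).pad.pad)).add
    (X.Ex.const 6 (-61)).pad.pad.pad).congr (by norm_num) (by decide +kernel)
    fun τ => by rw [yf]; push_cast; ring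

theorem ex_yw : Ex 0 3 (fun τ => yf (ww τ)) [60, 726, 4961] :=
  (((((ex_hm.add (X.Ex.const 6 1).pad).mono (by norm_num)).mul
    (ex_xw.add (X.Ex.const 4 (-16)))).add (X.Ex.const 4 (-61)).pad).congr le_rfl
    (by decide +kernel) fun τ => by rw [yf, hm_ww]; push_cast; ring).down

end Pool.Agent.Lib.MP_d6ddbd_nt.E11
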