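import Pool.Agent.Lib.MP_d6ddbd_nt.E11.Nbr
import Pool.Agent.Lib.MP_d6ddbd_nt.K11.Stmt

/-!
The map from level structures to points, the Fricke involution and the cusp `0`.
-/

set_option autoImplicit false

open UpperHalfPlane Pointwise WeierstrassCurve
open scoped MatrixGroups
open Pool.Agent.Lib.MP_9177b7_ag.CM
open Pool.Agent.Lib.MP_02f36d_nt (xc yc pt_ext add_coords xc_neg yc_neg)
open Pool.Agent.Lib.MP_d6ddbd_nt.K11 (Lv Nb EE Pt pt G E1 Ov xc_smul yc_smul smul_eq_zero' R2Stmt)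

noncomputable section

namespace Pool.Agent.Lib.MP_d6ddbd_nt.E11

variable {L M L' M' : Submodule ℤ ℂ} {c : ℂ} {z w : ℍ}

theorem EE_a : EE.a₁ = 0 ∧ EE.a₂ = -4 ∧ EE.a₃ = 0 ∧ EE.a₄ = -160 ∧ EE.a₆ = -1264 :=
  ⟨rfl, rfl, rfl, rfl, rfl⟩

theorem pt_spec {x y : ℂ} (h : y ^ 2 = x ^ 3 - 4 * x ^ 2 - 160 * x - 1264) :
    pt x y ≠ 0 ∧ xc (pt x y) = x ∧ yc (pt x y) = y := by
  have h1 : EE.Nonsingular x y := by
    refine (Affine.equation_iff_nonsingular_of_Δ_ne_zero ?_).1 ?_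
    · norm_num [EE, Δ, b₂, b₄, b₆, b₈]
    · rw [Affine.equation_iff]
      simp only [EE]
      linear_combination h
  rw [pt, dif_pos h1]
  exact ⟨Affine.Point.some_ne_zero _, rfl, rfl⟩

theorem pt_eqn {P : Pt} (h : P ≠ 0) : yc P ^ 2 = xc P ^ 3 - 4 * xc P ^ 2 - 160 * xc P - 1264 := by
  have := MP_02f36d_nt.eqn h
  simp only [EE_a] at this
  linear_combination this

theorem neg_spec {P : Pt} (h : P ≠ 0) : -P ≠ 0 ∧ xc (-P) = xc P ∧ yc (-P) = -yc P :=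
  ⟨neg_ne_zero.2 h, xc_neg P, by rw [yc_neg h]; simp [EE_a]⟩

theorem add_spec {P Q : Pt} (hP : P ≠ 0) (hQ : Q ≠ 0) {m : ℂ}
    (h1 : yc P - yc Q = m * (xc P - xc Q))
    (h2 : xc P = xc Q → yc P ≠ 0 ∧ 3 * xc P ^ 2 - 8 * xc P - 160 = m * (2 * yc P)) :
    P + Q ≠ 0 ∧ xc (P + Q) = m ^ 2 + 4 - xc P - xc Q ∧
      yc (P + Q) = -(m * (xc (P + Q) - xc P) + yc P) := by
  have hxy : ¬ (xc P = xc Q ∧ yc P = EE.negY (xc Q) (yc Q)) := by
    rintro ⟨e1, e2⟩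
    simp only [EE_a, Affine.negY] at e2
    rw [e1] at h1
    exact (h2 e1).1 (by linear_combination (h1 + e2) / 2)
  have hs : EE.slope (xc P) (xc Q) (yc P) (yc Q) = m := by
    by_cases e : xc P = xc Q
    · rw [Affine.slope_of_Y_ne e fun e2 => hxy ⟨e, e2⟩, div_eq_iff]
      · simp only [EE_a, Affine.negY]
        linear_combination (h2 e).2
      · simp only [EE_a, Affine.negY]
        exact fun k => (h2 e).1 (by linear_combination k / 2)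
    · rw [Affine.slope_of_X_ne e, div_eq_iff (sub_ne_zero.2 e), h1]
  obtain ⟨a0, a1, a2⟩ := add_coords hP hQ hxy
  rw [hs] at a1 a2
  refine ⟨a0, by rw [a1]; simp [EE_a, Affine.addX], ?_⟩
  rw [a2, Affine.addY, Affine.negAddY, ← a1]
  simp [EE_a, Affine.negY]

/-- The modular parametrisation. -/
def phi (τ : ℍ) : Pt := pt (XX τ) (YY τ)

/-- The image of the cusp `0`. -/
def t0 : Pt := pt 64 484

theorem phi_spec (τ : ℍ) : phi τ ≠ 0 ∧ xc (phi τ) = XX τ ∧ yc (phi τ) = YY τ := pt_spec (eqn τ)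

theorem t0_spec : t0 ≠ 0 ∧ xc t0 = 64 ∧ yc t0 = 484 := pt_spec (by norm_num)

theorem phi_ww (τ : ℍ) : phi (ww τ) = t0 - phi τ := by
  obtain ⟨a0, a1, a2⟩ := t0_spec
  obtain ⟨b0, b1, b2⟩ := neg_spec (phi_spec τ).1
  rw [(phi_spec τ).2.1] at b1
  rw [(phi_spec τ).2.2] at b2
  obtain ⟨c0, c1, c2⟩ := add_spec a0 b0 (m := -2 * (hm τ + 1))
    (by rw [a1, a2, b1, b2, YY_eq]; ring) fun e => by
      rw [a1, b1, XX] at e
      rw [a1, a2, hm_of (τ := τ) (by linear_combination -e / 4)]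
      norm_num
  have e : xc (t0 + -phi τ) = XX (ww τ) := by rw [c1, a1, b1, XX, XX, xf_ww]; ring
  rw [sub_eq_add_neg]
  refine pt_ext (phi_spec _).1 c0 (by rw [e, (phi_spec _).2.1]) ?_
  rw [c2, e, (phi_spec _).2.2, YY_eq, hm_ww, a1, a2]
  ring

theorem two_spec : 2 • t0 ≠ 0 ∧ xc (2 • t0 : Pt) = 20 ∧ yc (2 • t0 : Pt) = 44 := by
  obtain ⟨a0, a1, a2⟩ := t0_spec
  obtain ⟨c0, c1, c2⟩ := add_spec a0 a0 (m := 12) (by ring) fun _ => by rw [a1, a2]; norm_num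
  rw [two_nsmul]
  rw [a1] at c1
  rw [c1, a1, a2] at c2
  exact ⟨c0, by rw [c1]; norm_num, by rw [c2]; norm_num⟩

theorem five : 5 • t0 = 0 := by
  obtain ⟨a0, a1, a2⟩ := two_spec
  obtain ⟨c0, c1, c2⟩ := add_spec a0 a0 (m := 10) (by ring) fun _ => by rw [a1, a2]; norm_num
  obtain ⟨b0, b1, b2⟩ := neg_spec t0_spec.1
  rw [a1] at c1
  rw [c1, a1, a2] at c2
  have e := pt_ext c0 b0 (by rw [c1, b1, t0_spec.2.1]; norm_num)
    (by rw [c2, b2, t0_spec.2.2]; norm_num)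
  rw [show 5 • t0 = 2 • t0 + 2 • t0 + t0 by abel, e, neg_add_cancel]

theorem three_spec : 3 • t0 ≠ 0 ∧ xc (3 • t0 : Pt) = 20 ∧ yc (3 • t0 : Pt) = -44 := by
  have e : 3 • t0 = -(2 • t0 : Pt) := by
    rw [eq_neg_iff_add_eq_zero, ← five]; abel
  obtain ⟨b0, b1, b2⟩ := neg_spec two_spec.1
  rw [e, b1, b2, two_spec.2.1, two_spec.2.2]
  exact ⟨b0, rfl, rfl⟩

theorem smul_t0 (σ : G) : σ • t0 = t0 :=
  pt_ext (fun e => t0_spec.1 ((smul_eq_zero' σ _).1 e)) t0_spec.1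
    (by rw [xc_smul, t0_spec.2.1, map_ofNat]) (by rw [yc_smul, t0_spec.2.2, map_ofNat])

theorem phi_surj {P : Pt} (h0 : P ≠ 0) (h1 : P ≠ t0) : ∃ z, phi z = P := by
  obtain ⟨z, e1, e2⟩ := surj (pt_eqn h0) fun e => h1 (pt_ext h0 t0_spec.1
    (by rw [e.1, t0_spec.2.1]) (by rw [e.2, t0_spec.2.2]))
  exact ⟨z, pt_ext (phi_spec z).1 h0 (by rw [(phi_spec z).2.1, e1]) (by rw [(phi_spec z).2.2, e2])⟩

theorem phi_smul {γ : SL(2, ℤ)} (hγ : γ ∈ G0) (τ : ℍ) : phi (γ • τ) = phi τ := by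
  rw [phi, phi, inv_XX γ hγ, inv_YY γ hγ]

/-- The point attached to a level structure. -/
def Pp (L M : Submodule ℤ ℂ) : Pt := phi (Classical.epsilon fun z => ∃ c, Pr L M c z)

theorem Pr.pp (h : Pr L M c z) : Pp L M = phi z := by
  obtain ⟨c', h'⟩ := Classical.epsilon_spec (p := fun z => ∃ c, Pr L M c z) ⟨z, c, h⟩
  obtain ⟨γ, hγ, e, -⟩ := h.eq h'
  rw [Pp, e, phi_smul hγ]

theorem pp_scale (h : Lv L M) (hc : c ≠ 0) : Pp (c • L) (c • M) = Pp L M := by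
  obtain ⟨d, z, k⟩ := lv_pr h
  rw [k.pp, (k.scale hc).pp]

theorem pp_fricke (h : Lv L M) : Pp M ((11 : ℂ)⁻¹ • L) = t0 - Pp L M := by
  obtain ⟨d, z, k⟩ := lv_pr h
  rw [← one_div, k.ww.pp, k.pp, phi_ww]

theorem conj_lt {σ : G} (h1 : Conj (σ : ℂ →+* ℂ) L L') (h2 : Conj (σ : ℂ →+* ℂ) M M')
    (h : L < M) : L' < M' :=
  lt_of_le_not_ge (hyp.conj_mono h1 h2 h.le) fun e => h.not_ge (hyp.conj_mono h2.symm h1.symm e)

theorem pp_conj (σ : G) (h : Lv L M) (h1 : Conj (σ : ℂ →+* ℂ) L L')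
    (h2 : Conj (σ : ℂ →+* ℂ) M M') : Pp L' M' = σ • Pp L M := by
  have h3 := hyp.conj_smul h2 (c := 11) (by norm_num)
  rw [map_ofNat] at h3
  obtain ⟨d, z, k⟩ := lv_pr h
  obtain ⟨d', w, k'⟩ := lv_pr ⟨h1.2.1, conj_lt h1 h2 h.2.1, conj_lt h3 h1 h.2.2⟩
  obtain ⟨e1, e2⟩ := equiv _ k k' h1 h2
  rw [k.pp, k'.pp]
  exact pt_ext (phi_spec w).1 (fun e => (phi_spec z).1 ((smul_eq_zero' σ _).1 e))
    (by rw [xc_smul, (phi_spec _).2.1, (phi_spec _).2.1, e1]; rfl)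
    (by rw [yc_smul, (phi_spec _).2.2, (phi_spec _).2.2, e2]; rfl)

/-! ### Residues -/

variable {O : ValuationSubring ℂ}

/-- The residue map. -/
abbrev rs (O : ValuationSubring ℂ) : O →+* IsLocalRing.ResidueField O := IsLocalRing.residue O

@[norm_cast] theorem coe_ofNat (n : ℕ) [n.AtLeastTwo] :
    ((ofNat(n) : O) : ℂ) = ofNat(n) := rfl

theorem rs_zero {a : O} : rs O a = 0 ↔ (a : ℂ) ∈ O.nonunits := by
  rw [IsLocalRing.residue_eq_zero_iff, ValuationSubring.coe_mem_nonunits_iff]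

theorem rs_eq {a b : O} : rs O a = rs O b ↔ (a : ℂ) - b ∈ O.nonunits := by
  rw [← sub_eq_zero, ← map_sub, rs_zero]
  rfl

theorem rs_div (n : O) {d : O} (hd : rs O d ≠ 0) :
    ∃ e : O, (e : ℂ) * d = n ∧ (d : ℂ) ≠ 0 ∧ rs O e = rs O n / rs O d := by
  obtain ⟨u, rfl⟩ := (IsLocalRing.residue_ne_zero_iff_isUnit d).1 hd
  have e : n * (u⁻¹ : Oˣ) * u = n := by simp
  refine ⟨n * (u⁻¹ : Oˣ), by exact_mod_cast e, by simp, ?_⟩
  rw [eq_div_iff hd, ← map_mul, e]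

theorem rs_char {l : ℕ} (hl : l.Prime) (h : Ov O l) : CharP (IsLocalRing.ResidueField O) l := by
  refine (CharP.charP_iff_prime_eq_zero hl).2 ?_
  rw [← map_natCast (rs O), rs_zero]
  exact h

theorem rs_ne {l : ℕ} (hl : l.Prime) (h : Ov O l) {p : ℕ} (hp : p.Prime) (e : l ≠ p) :
    (p : IsLocalRing.ResidueField O) ≠ 0 := by
  have := rs_char hl h
  rw [Ne, CharP.cast_eq_zero_iff _ l, Nat.prime_dvd_prime_iff_eq hl hp]
  exact e

theorem j_cong (h2 : (2 : IsLocalRing.ResidueField O) ≠ 0)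
    (h11 : (11 : IsLocalRing.ResidueField O) ≠ 0) (hx : XX z - 20 ∈ O.nonunits)
    (hy : YY z - -44 ∈ O.nonunits) : jH z + 32768 ∈ O.nonunits := by
  obtain ⟨a, ha⟩ : ∃ a : O, (a : ℂ) = XX z - 20 := ⟨⟨_, O.nonunits_le hx⟩, rfl⟩
  obtain ⟨b, hb⟩ : ∃ b : O, (b : ℂ) = YY z - -44 := ⟨⟨_, O.nonunits_le hy⟩, rfl⟩
  have ra : rs O a = 0 := rs_zero.2 (ha ▸ hx)
  have rb : rs O b = 0 := rs_zero.2 (hb ▸ hy)
  have k1 : rs O (2 * (a - 44)) = -(2 ^ 3 * 11) := by simp [ra, map_ofNat]; norm_num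
  have k2 : (2 ^ 3 * 11 : IsLocalRing.ResidueField O) ≠ 0 := mul_ne_zero (pow_ne_zero _ h2) h11
  obtain ⟨e, e1, e2, e3⟩ := rs_div (b + 440 - 2 * (a - 44)) (d := 2 * (a - 44))
    (by rw [k1]; exact neg_ne_zero.2 k2)
  have re : rs O e = -6 := by
    rw [e3, map_sub, k1, div_eq_iff (neg_ne_zero.2 k2)]
    simp [rb, map_ofNat]
    norm_num
  have he : (e : ℂ) = hm z := by
    refine mul_right_cancel₀ e2 ?_
    rw [e1]
    push_cast
    rw [ha, hb, YY_eq]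
    ring
  obtain ⟨n, hn, rn⟩ : ∃ n : O, (n : ℂ) = 2 * an z ∧ rs O n = 0 :=
    ⟨a + 48 - 2 * e ^ 2 - 4 * e, by push_cast; rw [ha, he, XX, xf]; ring, by
      simp [ra, re, map_ofNat]; norm_num⟩
  obtain ⟨t, ht, rt⟩ : ∃ t : O, (t : ℂ) = 4 * tf z ∧ rs O t = -(2 ^ 2 * 11 ^ 3) :=
    ⟨2 * (e ^ 5 - 12 * e ^ 4 - 31 * e ^ 3 + 498 * e ^ 2 + 220 * e - 2638) +
      n * (e ^ 3 - 14 * e ^ 2 + 43 * e + 10), by
        push_cast; rw [hn, he]; linear_combination -2 * tf_rel z, by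
      simp [rn, re, map_ofNat]; norm_num⟩
  obtain ⟨s, s1, s2, s3⟩ := rs_div (4 * (61 * e ^ 2 + 364 * e + 340 - 30 * n) ^ 3 + 32768 * t)
    (d := t) (by rw [rt]; exact neg_ne_zero.2 (mul_ne_zero (pow_ne_zero _ h2) (pow_ne_zero _ h11)))
  have hs : (s : ℂ) = jH z + 32768 := by
    refine mul_right_cancel₀ s2 ?_
    have := tf_ne z
    rw [s1]
    push_cast
    rw [ht, hn, he, jH_eq, cA_eq]
    field_simp
    ring
  rw [← hs, ← rs_zero, s3, div_eq_zero_iff]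
  left
  simp [rn, re, rt, map_ofNat]
  norm_num

theorem pp_jc (hR : R2Stmt) {v : ℕ} (hv : v.Prime) (h44 : 44 < v) (hO : Ov O v) (h : Lv L M)
    (h' : Lv L' M') (e : Pp L' M' = 3 • t0) (k : Pp L M - 3 • t0 ∈ E1 O) :
    jL L - jL L' ∈ O.nonunits := by
  have key : ∀ L M, Lv L M → Pp L M - 3 • t0 ∈ E1 O → jL L + 32768 ∈ O.nonunits := by
    intro L M h k
    obtain ⟨d, z, p⟩ := lv_pr h
    obtain ⟨a0, a1, a2⟩ := three_spec
    rw [p.pp] at k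
    have h1 := ((hR v O hv (by omega) (by omega) hO).2.1 _ _ (phi_spec z).1 a0
      (by rw [a1]; exact natCast_mem O 20)).2.1 k
    rw [a1, a2, (phi_spec z).2.1, (phi_spec z).2.2] at h1
    rw [p.2.1, hyp.jL_smul _ p.1, hyp.jL_sp]
    exact j_cong (by exact_mod_cast rs_ne hv hO Nat.prime_two (by omega))
      (by exact_mod_cast rs_ne hv hO (p := 11) (by norm_num) (by omega)) h1.1 h1.2
  have := sub_mem (key L M h k) (key L' M' h' (by rw [e, sub_self]; exact zero_mem _))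
  rwa [add_sub_add_right_eq_sub] at this

end Pool.Agent.Lib.MP_d6ddbd_nt.E11
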