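import Pool.Agent.Lib.MP_d6ddbd_nt.E11.Cur

/-!
Integrality of the expansions on `X₀(11)`.
-/

set_option autoImplicit false

open UpperHalfPlane Filter Topology PowerSeries
open Pool.Agent.Lib.MP_9177b7_ag.CM Pool.Agent.Lib.MP_9177b7_ag.CM.Norm
open Pool.Agent.Lib.MP_d6ddbd_nt.X (qq qq_ne Ex hq_congr hq_sub hq_add hq_smul hq_X hq_of_disc
  hq_pow hq_prod hq_unique hq_inv hq_const pe pe_ne ex_pe)
open ModularForm

noncomputable section

namespace Pool.Agent.Lib.MP_d6ddbd_nt.E11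

variable {F G : ℍ → ℂ} {m n N : ℕ} {k : List ℚ}

/-- `q ^ m F` has an integral expansion. -/
def IZ (m : ℕ) (F : ℍ → ℂ) : Prop :=
  ∃ φ : PowerSeries ℤ, HQ 1 (fun τ => qq 1 τ ^ m * F τ) (φ.map (Int.castRingHom ℂ))

theorem IZ.mul (H : IZ m F) (K : IZ n G) : IZ (m + n) fun τ => F τ * G τ := by
  obtain ⟨φ, h1⟩ := H
  obtain ⟨ψ, h2⟩ := K
  exact ⟨φ * ψ, by rw [map_mul]; exact hq_congr (HQ_mul h1 h2) fun τ => by ring⟩

theorem IZ.add (H : IZ m F) (K : IZ m G) : IZ m fun τ => F τ + G τ := by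
  obtain ⟨φ, h1⟩ := H
  obtain ⟨ψ, h2⟩ := K
  exact ⟨φ + ψ, by rw [map_add]; exact hq_congr (hq_add h1 h2) fun τ => by ring⟩

theorem IZ.smul (H : IZ m F) (c : ℤ) : IZ m fun τ => c * F τ := by
  obtain ⟨φ, h1⟩ := H
  exact ⟨C c * φ, by rw [map_mul, map_C]; exact hq_congr (hq_smul (c : ℂ) h1) fun τ => by ring⟩

theorem IZ.shift (H : IZ n G) (e : ∀ τ, qq 1 τ ^ m * F τ = qq 1 τ ^ n * G τ) : IZ m F := by
  obtain ⟨φ, h1⟩ := H
  exact ⟨φ, hq_congr h1 e⟩

theorem IZ.congr (H : IZ m F) (e : ∀ τ, G τ = F τ) : IZ m G := H.shift fun τ => by rw [e]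

theorem iz_q : IZ 0 (qq 1) := ⟨X, by simpa using hq_X 1⟩

theorem IZ.pad (H : IZ m F) : IZ (m + 1) F := (iz_q.mul H).shift fun τ => by ring

theorem iz_const (m : ℕ) (c : ℤ) : IZ m fun _ => c := by
  induction m with
  | zero => exact ⟨C c, by simpa using hq_const 1 (c : ℂ)⟩
  | succ m ih => exact ih.pad

theorem IZ.up (H : IZ 0 F) : IZ 0 fun τ => F (up τ) := by
  obtain ⟨φ, h1⟩ := H
  refine ⟨expand 11 (by norm_num) φ, ?_⟩
  rw [map_expand]
  simpa using hq_upl (F := F) (p := 11) (by norm_num) (by simpa using h1)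

theorem IZ.coeff (H : IZ m F) (K : Ex m N F k) : ∃ φ : PowerSeries ℤ,
    HQ 1 (fun τ => qq 1 τ ^ m * F τ) (φ.map (Int.castRingHom ℂ)) ∧
      ∀ i < N, ((coeff i φ : ℤ) : ℚ) = k.getD i 0 := by
  obtain ⟨φ, h1⟩ := H
  obtain ⟨ψ, h2, h3⟩ := K
  refine ⟨φ, h1, fun i hi => ?_⟩
  have := congrArg (PowerSeries.coeff i) (hq_unique one_pos h1 h2)
  simp only [coeff_map, eq_intCast, eq_ratCast] at this
  rw [← h3 i hi]
  exact_mod_cast this

theorem iz_div {φ : PowerSeries ℤ} {c : ℤ} (hc : c ≠ 0)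
    (H : HQ 1 (fun τ => qq 1 τ ^ m * (c * F τ)) (φ.map (Int.castRingHom ℂ)))
    (h : ∀ i, c ∣ coeff i φ) : IZ m F := by
  choose r hr using h
  have h0 : (c : ℂ) ≠ 0 := by exact_mod_cast hc
  refine ⟨PowerSeries.mk r, ?_⟩
  have e : (PowerSeries.mk r).map (Int.castRingHom ℂ) =
      C (c : ℂ)⁻¹ * φ.map (Int.castRingHom ℂ) := by
    ext i
    simp [hr, h0]
  rw [e]
  exact hq_congr (hq_smul _ H) fun τ => by field_simp

theorem iz_pe : IZ 0 pe := by
  have hg := differentiableOn_tprod_one_sub_pow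
  have h1 : ∀ n, TendstoLocallyUniformlyOn
      (fun s : Finset ℕ => iteratedDeriv n fun q : ℂ => ∏ i ∈ s, (1 - q ^ (i + 1)))
      (iteratedDeriv n fun q : ℂ => ∏' i : ℕ, (1 - q ^ (i + 1))) atTop (Metric.ball 0 1) := by
    intro n
    induction n with
    | zero => exact multipliableLocallyUniformlyOn_one_sub_pow.hasProdLocallyUniformlyOn
    | succ n ih =>
      simp only [iteratedDeriv_succ]
      exact ih.deriv (Eventually.of_forall fun s => (ContDiff.differentiable_iteratedDeriv' n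
        (by fun_prop)).differentiableOn) Metric.isOpen_ball
  have h2 : ∀ n, ∃ r : ℤ, (r : ℂ) = coeff n (tay fun q : ℂ => ∏' i : ℕ, (1 - q ^ (i + 1))) := by
    intro n
    rw [Mono.coeff_tay]
    refine Complex.isClosed_range_intCast.mem_of_tendsto
      (((h1 n).tendsto_at (Metric.mem_ball_self one_pos)).const_mul ((n.factorial : ℂ))⁻¹)
      (Eventually.of_forall fun s => ⟨coeff n (∏ i ∈ s, (1 - X ^ (i + 1))), ?_⟩)
    have k1 : HQ 1 (fun τ => ∏ i ∈ s, (1 - qq 1 τ ^ (i + 1))) _ :=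
      hq_of_disc one_pos (g := fun q => ∏ i ∈ s, (1 - q ^ (i + 1))) (by fun_prop) fun _ => rfl
    have k2 := hq_prod s fun i _ => hq_sub (HQ_one 1) (hq_pow (hq_X 1) (i + 1))
    rw [← Mono.coeff_tay, hq_unique one_pos k1 k2, ← eq_intCast (Int.castRingHom ℂ), ← coeff_map]
    simp
  choose r hr using h2
  refine ⟨PowerSeries.mk r, ?_⟩
  have e : (PowerSeries.mk r).map (Int.castRingHom ℂ) =
      tay fun q : ℂ => ∏' i : ℕ, (1 - q ^ (i + 1)) := PowerSeries.ext fun n => by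
    rw [coeff_map, coeff_mk, eq_intCast, hr]
  rw [e]
  exact hq_of_disc one_pos hg fun τ => by rw [pow_zero, one_mul, pe]

theorem iz_ip : IZ 0 fun τ => (pe τ)⁻¹ := by
  obtain ⟨φ, h1, h2⟩ := iz_pe.coeff ex_pe
  have h3 : constantCoeff φ = ((1 : ℤˣ) : ℤ) := by simpa using h2 0 (by norm_num)
  obtain ⟨b, h4, h5⟩ := hq_inv one_pos (F := pe) (by simpa using h1) (by simp [h3]) pe_ne
  have h6 := congrArg (PowerSeries.map (Int.castRingHom ℂ)) (mul_invOfUnit φ 1 h3)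
  rw [map_mul, map_one] at h6
  refine ⟨invOfUnit φ 1, ?_⟩
  rw [show (invOfUnit φ 1).map (Int.castRingHom ℂ) = b by
    linear_combination b * h6 - (invOfUnit φ 1).map (Int.castRingHom ℂ) * h5]
  simpa using h4

theorem iz_H : IZ 0 fun τ => Hh τ / qq 1 τ :=
  ((iz_pe.mul iz_pe).mul (iz_pe.up.mul iz_pe.up)).congr fun τ => by
    have := qq_ne 1 τ
    rw [Hh_eq]
    field_simp

theorem iz_iH : IZ 1 fun τ => (Hh τ)⁻¹ :=
  ((iz_ip.mul iz_ip).mul (iz_ip.up.mul iz_ip.up)).shift fun τ => by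
    have := qq_ne 1 τ
    have := pe_ne τ
    have := pe_ne (up τ)
    rw [Hh_eq, pow_zero]
    field_simp

theorem iz_S2 : IZ 0 fun τ => (EisensteinSeries.E2 τ - 1) / 24 := by
  refine iz_div (c := 24) (φ := PowerSeries.mk (fun m => if m = 0 then 1 else
    -24 * (ArithmeticFunction.sigma 1 m : ℤ)) - 1) (by norm_num) ?_ fun i => ?_
  · rw [map_sub, map_one]
    refine hq_congr (hq_sub (F := EisensteinSeries.E2) (fun τ => ?_) (HQ_one 1)) fun τ => by
      push_cast; ring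
    simpa [Function.Periodic.qParam, apply_ite] using EisensteinSeries.hasSum_qExpansion_E2 (z := τ)
  · cases i <;> simp [coeff_one]

theorem iz_S4 : IZ 0 fun τ => (E₄ τ - 1) / 240 := by
  refine iz_div (c := 240) (φ := Kron.e4 - 1) (by norm_num) ?_ fun i => ?_
  · rw [map_sub, map_one, Kron.map_e4]
    exact hq_congr (hq_sub (HQ_form E₄) (HQ_one 1)) fun τ => by push_cast; ring
  · cases i <;> simp [coeff_one, Kron.e4]

theorem iz_an : IZ 2 an :=
  ((((iz_S4.up.smul 242).add (iz_S4.smul (-2))).add (iz_const 0 1)).mul (iz_iH.mul iz_iH)).congr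
    fun τ => by rw [an]; push_cast; ring

theorem iz_hm : IZ 1 hm := by
  have h1 : IZ 1 fun τ => ((5 : ℤ) : ℂ) * hm τ :=
    (((((iz_S2.up.smul 132).add (iz_S2.smul (-12))).add (iz_const 0 5)).mul iz_iH).add
      (iz_const 1 (-22))).congr fun τ => by rw [hm, e2]; push_cast; ring
  have h2 : IZ 4 fun τ => 125 * an τ ^ 2 - 4 * (5 * hm τ) ^ 3 + 440 * (5 * hm τ) ^ 2 +
      16700 * (5 * hm τ) + 159000 :=
    ((((((iz_an.mul iz_an).smul 125).add (((h1.mul h1).mul h1).pad.smul (-4))).add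
      ((h1.mul h1).pad.pad.smul 440)).add (h1.pad.pad.pad.smul 16700)).add
      (iz_const 4 159000)).congr fun τ => by push_cast; ring
  obtain ⟨φ, h3⟩ := h1
  obtain ⟨ψ, h4⟩ := h2
  have h5 : φ ^ 4 = C 5 * ψ := by
    apply PowerSeries.map_injective (Int.castRingHom ℂ) Int.cast_injective
    rw [map_pow, map_mul, map_C]
    exact hq_unique one_pos (hq_pow h3 4) (hq_congr (hq_smul _ h4) fun τ => by
      simp only [eq_intCast]
      push_cast
      linear_combination -625 * qq 1 τ ^ 4 * rel1 τ)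
  have : Fact (Nat.Prime 5) := ⟨by norm_num⟩
  have h6 := congrArg (PowerSeries.map (Int.castRingHom (ZMod 5))) h5
  rw [map_pow, map_mul, map_C, show Int.castRingHom (ZMod 5) 5 = 0 from rfl, map_zero, zero_mul,
    pow_eq_zero_iff (by norm_num)] at h6
  exact iz_div (by norm_num) h3 fun i => (ZMod.intCast_zmod_eq_zero_iff_dvd _ 5).1
    (by simpa using congrArg (coeff i) h6)

theorem iz_XX : IZ 2 XX :=
  (((((iz_hm.mul iz_hm).smul 2).add (iz_hm.pad.smul 4)).add (iz_an.smul 2)).add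
    (iz_const 2 (-28))).congr fun τ => by rw [XX, xf]; push_cast; ring

theorem iz_YY : IZ 3 YY :=
  ((((iz_hm.add (iz_const 1 1)).mul (iz_XX.add (iz_const 2 (-64)))).smul 2).add
    (iz_const 3 (-484))).congr fun τ => by rw [YY_eq]; push_cast; ring

theorem ser_XX : ∃ φ : PowerSeries ℤ,
    HQ 1 (fun τ => qq 1 τ ^ 2 * XX τ) (φ.map (Int.castRingHom ℂ)) ∧ coeff 0 φ = 4 := by
  obtain ⟨φ, h1, h2⟩ := iz_XX.coeff ((ex_xf.smul 4).congr (l := [4]) (N' := 1) (by norm_num)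
    (by decide +kernel) fun τ => by rw [XX]; push_cast; ring)
  exact ⟨φ, h1, by exact_mod_cast (h2 0 one_pos).trans List.getD_cons_zero⟩

theorem ser_YY : ∃ φ : PowerSeries ℤ,
    HQ 1 (fun τ => qq 1 τ ^ 3 * YY τ) (φ.map (Int.castRingHom ℂ)) ∧ coeff 0 φ = 8 := by
  obtain ⟨φ, h1, h2⟩ := iz_YY.coeff (((ex_yf.smul 8).add (X.Ex.const 4 4).pad.pad.pad).congr
    (l := [8]) (N' := 1) (by norm_num) (by decide +kernel) fun τ => by rw [YY]; push_cast; ring)
  exact ⟨φ, h1, by exact_mod_cast (h2 0 one_pos).trans List.getD_cons_zero⟩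

theorem ser_H : ∃ φ : PowerSeries ℤ, HQ 1 Hh (X * φ.map (Int.castRingHom ℂ)) ∧ coeff 0 φ = 1 := by
  obtain ⟨φ, h1, h2⟩ := iz_H.coeff ((X.ex_p2.mul (ex_up X.ex_p2 le_rfl)).congr (l := [1]) (N' := 1)
    (by norm_num) (by decide +kernel) fun τ => by
      have := qq_ne 1 τ
      rw [Hh_eq]
      field_simp)
  refine ⟨φ, hq_congr (HQ_mul (hq_X 1) h1) fun τ => ?_, by exact_mod_cast (h2 0 one_pos).trans List.getD_cons_zero⟩
  have := qq_ne 1 τ
  field_simp

end Pool.Agent.Lib.MP_d6ddbd_nt.E11
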