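import Pool.Agent.Lib.MP_d6ddbd_nt.E11.Uni
import Pool.Agent.Lib.MP_d6ddbd_nt.E11.Int

/-!
The Hecke correspondences act on the parametrisation by integers.
-/

set_option autoImplicit false

open UpperHalfPlane Filter Topology PowerSeries
open scoped MatrixGroups
open Pool.Agent.Lib.MP_9177b7_ag.CM Pool.Agent.Lib.MP_9177b7_ag.CM.Norm
open Pool.Agent.Lib.MP_d6ddbd_nt.X (fa qq_ne hq_congr hq_smul hq_sum hq_unique hq_hol hq_bdd
  hq_tendsto hq_exists hq_divX)
open Pool.Agent.Lib.MP_d6ddbd_nt.K11 (Pt UnifStmt)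

noncomputable section

namespace Pool.Agent.Lib.MP_d6ddbd_nt.E11

variable {F : ℍ → ℂ} {l : ℕ} {a : PowerSeries ℂ}

/-- A primitive root of unity of order `l`. -/
def zt (l : ℕ) : ℂ := Complex.exp (2 * Real.pi * Complex.I / l)

theorem zt_pow (hl : l ≠ 0) : zt l ^ l = 1 := (Complex.isPrimitiveRoot_exp l hl).pow_eq_one

theorem pos_of (hl : l ≠ 0) : (0 : ℝ) < l := by positivity

theorem qq_lev (hl : l ≠ 0) (τ : ℍ) : X.qq 1 τ = X.qq l τ ^ l := by
  have : (l : ℂ) ≠ 0 := Nat.cast_ne_zero.2 hl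
  rw [X.qq, X.qq, Function.Periodic.qParam, Function.Periodic.qParam, ← Complex.exp_nat_mul]
  congr 1
  push_cast
  field_simp

theorem qq_dnl (hl : l ≠ 0) (i : ℕ) (τ : ℍ) : X.qq 1 (dn l i τ) = zt l ^ i * X.qq l τ := by
  rw [X.qq, X.qq, zt, coe_dn hl, Function.Periodic.qParam, Function.Periodic.qParam,
    ← Complex.exp_nat_mul, ← Complex.exp_add]
  congr 1
  push_cast
  ring

theorem hq_lev (hl : l ≠ 0) (H : HQ 1 F a) : HQ l F (expand l hl a) := fun τ => by
  apply hasSum_expand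
  have := H τ
  rwa [show Function.Periodic.qParam 1 (τ : ℂ) = X.qq l τ ^ l from qq_lev hl τ] at this

/-- The action of the branches of the correspondence on series. -/
def ns {R : Type} [CommRing R] (hl : l ≠ 0) (ζ : R) (i : Option (Fin l)) :
    PowerSeries R →+* PowerSeries R :=
  i.elim ((expand l hl).toRingHom.comp (expand l hl).toRingHom) fun i => rescale (ζ ^ (i : ℕ))

theorem hq_nz (hl : l ≠ 0) (H : HQ 1 F a) (i : Option (Fin l)) :
    HQ l (fun τ => F (nz l τ i)) (ns hl (zt l) i a) := by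
  rcases i with _ | i
  · exact hq_lev hl (hq_upl hl H)
  · intro τ
    have := H (dn l i τ)
    rw [show Function.Periodic.qParam 1 ((dn l i τ : ℍ) : ℂ) = _ from qq_dnl hl i τ] at this
    refine this.congr_fun fun m => ?_
    simp only [ns, Option.elim, coeff_rescale, mul_pow, smul_eq_mul]
    ring

theorem coeff_zero_ns {R : Type} [CommRing R] (hl : l ≠ 0) (ζ : R) (i : Option (Fin l))
    (a : PowerSeries R) : coeff 0 (ns hl ζ i a) = coeff 0 a := by
  rcases i with _ | i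
  · simp [ns]
  · simp only [ns, Option.elim, coeff_rescale, pow_zero, one_mul]

theorem T_mem : ModularGroup.T ∈ G0 :=
  CongruenceSubgroup.Gamma0_mem.2 (by simp [ModularGroup.T])

theorem hq_down (hl : l ≠ 0) (H : HQ l F a) (hT : ∀ τ, F (ModularGroup.T • τ) = F τ) :
    ∃ c, HQ 1 F c ∧ expand l hl c = a := by
  have K := hq_exists (hq_hol (pos_of hl) H) hT (hq_bdd (pos_of hl) H)
  exact ⟨_, K, hq_unique (pos_of hl) (hq_lev hl K) H⟩

theorem hecke_form (hl : l.Prime) (h11 : l ≠ 11) :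
    ∃ a : ℤ, ∀ τ, ∑ i, l / nc l i ^ 2 * Hh (nz l τ i) = a * Hh τ := by
  have h0 := hl.ne_zero
  have hc : (l : ℂ) ≠ 0 := Nat.cast_ne_zero.2 h0
  set T : ℍ → ℂ := fun τ => ∑ i, l / nc l i ^ 2 * Hh (nz l τ i) with hT
  have h1 : ∀ γ ∈ G0, ∀ τ, T (γ • τ) = fa γ τ ^ 2 * T τ := fun γ hγ τ => by
    obtain ⟨e, he⟩ := perm_smul hl h11 hγ τ
    simp only [hT]
    rw [← Equiv.sum_comp e, Finset.mul_sum]
    refine Finset.sum_congr rfl fun i _ => ?_
    obtain ⟨δ, k1, k2, k3⟩ := he i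
    have := nc_ne h0 i
    have := nc_ne h0 (e i)
    rw [k2, Hh_smul k1, show fa δ (nz l τ i) = fa γ τ * nc l (e i) / nc l i by
      rw [k3]; field_simp]
    field_simp
  have h2 : ∀ τ, T (ww τ) = -11 * (τ : ℂ) ^ 2 * T τ := fun τ => by
    obtain ⟨e, he⟩ := perm_ww hl h11 τ
    simp only [hT]
    rw [← Equiv.sum_comp e, Finset.mul_sum]
    refine Finset.sum_congr rfl fun i _ => ?_
    obtain ⟨δ, k1, k2, k3⟩ := he i
    have := nc_ne h0 i
    have := nc_ne h0 (e i)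
    have := (nz l τ i).ne_zero
    rw [k2, Hh_smul k1, Hh_ww, show fa δ (ww (nz l τ i)) = τ * nc l (e i) / (nc l i * nz l τ i) by
      rw [k3]; field_simp]
    field_simp
  obtain ⟨φ, h3, h4⟩ := ser_H
  obtain ⟨c, h5, h6⟩ := hq_down h0 (F := T)
    (hq_sum Finset.univ fun i _ => hq_smul (l / nc l i ^ 2) (hq_nz h0 h3 i))
    fun τ => by rw [h1 _ T_mem]; simp [fa, ModularGroup.T]
  obtain ⟨d, rfl⟩ : X ∣ c := X_dvd_iff.2 (by
    rw [← constantCoeff_expand l h0, h6, ← coeff_zero_eq_constantCoeff_apply, map_sum]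
    refine Finset.sum_eq_zero fun i _ => ?_
    rw [coeff_C_mul, coeff_zero_ns, coeff_zero_X_mul, mul_zero])
  obtain ⟨ψ, h7⟩ := iz_iH
  have h8 := hq_congr (G := fun τ => T τ / Hh τ) (HQ_mul (hq_divX (F := fun τ => T τ / X.qq 1 τ)
    (hq_congr h5 fun τ => mul_div_cancel₀ _ (qq_ne 1 τ))) h7) fun τ => by
      have := qq_ne 1 τ
      field_simp
  obtain ⟨κ, hκ⟩ := liou _ (hq_hol one_pos h8) (fun γ hγ τ => by
      rw [h1 γ hγ, Hh_smul hγ, mul_div_mul_left _ _ (pow_ne_zero 2 (Lat.denom_ne γ τ))])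
    (hq_bdd one_pos h8) (by
      simp only [h2, Hh_ww, mul_div_mul_left _ _
        (mul_ne_zero (by norm_num : (-11 : ℂ) ≠ 0) (pow_ne_zero 2 (ne_zero _)))]
      exact hq_bdd one_pos h8)
  have h9 : ∀ τ, T τ = κ * Hh τ := fun τ => (div_eq_iff (Hh_ne τ)).1 (hκ τ)
  rw [hq_unique one_pos h5 (hq_congr (hq_smul κ h3) h9)] at h6
  have h10 := congrArg (coeff (l * 1)) h6
  have h12 : ∀ i : Fin l, coeff (l * 1) (C (l / nc l (some i) ^ 2) *
      ns h0 (zt l) (some i) (X * φ.map (Int.castRingHom ℂ))) =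
      coeff (l * 1) (X * φ.map (Int.castRingHom ℂ)) / l := fun i => by
    simp only [coeff_C_mul, ns, nc, Option.elim, coeff_rescale]
    rw [mul_one, ← pow_mul, mul_comm (i : ℕ), pow_mul, zt_pow h0, one_pow]
    field_simp
  rw [coeff_expand_mul, map_sum, Fintype.sum_option, Finset.sum_congr rfl fun i _ => h12 i,
    coeff_C_mul, coeff_C_mul, show ns h0 (zt l) none (X * φ.map (Int.castRingHom ℂ)) =
      expand l h0 (expand l h0 (X * φ.map (Int.castRingHom ℂ))) from rfl, coeff_expand_mul,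
    coeff_expand_of_not_dvd _ _ _ hl.not_dvd_one, coeff_succ_X_mul, coeff_map, h4] at h10
  refine ⟨coeff (l * 1) (X * φ), fun τ => (h9 τ).trans ?_⟩
  congr 1
  rw [← eq_intCast (Int.castRingHom ℂ), ← coeff_map, map_mul, map_X]
  simpa [hc, mul_div_cancel₀] using h10

theorem hecke_phi (hU : UnifStmt) (hl : l.Prime) (h11 : l ≠ 11) :
    ∃ a : ℤ, ∀ τ, ∑ i, phi (nz l τ i) = a • phi τ := by
  obtain ⟨a, ha⟩ := hecke_form hl h11
  obtain ⟨W, ω, h1, h2, h3⟩ := exists_int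
  have h4 : Tendsto W atImInfty (𝓝 0) := h3 ▸ hq_tendsto one_pos h2
  obtain ⟨u, hu⟩ := unif hU h1 h4
  obtain ⟨c, hc⟩ := ((HD.sum Finset.univ fun i => h1.comp (hd_nz hl.ne_zero i)).add
    (h1.smul (-a))).const fun τ => by
      rw [neg_mul, mul_left_comm, ← ha, Finset.mul_sum, add_neg_eq_zero]
      exact Finset.sum_congr rfl fun i _ => by ring
  have h5 := (tendsto_finsetSum Finset.univ fun i _ =>
    hq_tendsto (pos_of hl.ne_zero) (hq_nz hl.ne_zero h2 i)).add (h4.const_mul (-(a : ℂ)))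
  simp only [hc, coeff_zero_ns, h3, Finset.sum_const_zero, mul_zero, add_zero] at h5
  obtain rfl := tendsto_nhds_unique tendsto_const_nhds h5
  refine ⟨a, fun τ => ?_⟩
  simp only [hu]
  rw [← map_sum, ← map_zsmul, zsmul_eq_mul]
  congr 1
  linear_combination hc τ

end Pool.Agent.Lib.MP_d6ddbd_nt.E11
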