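import Pool.Agent.Lib.MP_d6ddbd_nt.E11.Cos
import Pool.Agent.Lib.MP_d6ddbd_nt.X.Eta

/-!
Transformation laws of the functions on `X₀(11)`.
-/

set_option autoImplicit false

open UpperHalfPlane Filter Topology
open scoped MatrixGroups
open Pool.Agent.Lib.MP_9177b7_ag.CM Pool.Agent.Lib.MP_9177b7_ag.CM.Norm
open Pool.Agent.Lib.MP_d6ddbd_nt.K (Hol Gro MF QE RatS)
open Pool.Agent.Lib.MP_d6ddbd_nt.X (fa form_smul E4_smul E6_smul Delta_smul E2_smul eta_ne fa_S coe_S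
  eta_S)
open ModularForm EisensteinSeries

noncomputable section

namespace Pool.Agent.Lib.MP_d6ddbd_nt.E11

theorem coe_up' (τ : ℍ) : ((up τ : ℍ) : ℂ) = 11 * τ := by
  rw [coe_up (by norm_num)]; norm_num

theorem K4_neg : ∀ a b c d : ZMod 4, a * d - b * c = 1 →
    X.Eta.K4 a (-b) (-c) d + X.Eta.K4 a b c d = 0 := by decide

theorem eta_up_ne (τ : ℍ) : eta (11 * (τ : ℂ)) ≠ 0 := coe_up' τ ▸ eta_ne (up τ)

theorem tf_ne (τ : ℍ) : tf τ ≠ 0 := pow_ne_zero _ (div_ne_zero (eta_ne τ) (eta_up_ne τ))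

theorem Hh_ne (τ : ℍ) : Hh τ ≠ 0 := pow_ne_zero _ (mul_ne_zero (eta_ne τ) (eta_up_ne τ))

open X.Eta in
theorem Hh_smul {γ : SL(2, ℤ)} (hγ : γ ∈ G0) (τ : ℍ) : Hh (γ • τ) = fa γ τ ^ 2 * Hh τ := by
  obtain ⟨c, hc⟩ : (11 : ℤ) ∣ γ 1 0 := (ZMod.intCast_zmod_eq_zero_iff_dvd _ 11).1 hγ
  have hd := det_ent γ
  let δ : SL(2, ℤ) := ⟨!![γ 0 0, 11 * γ 0 1; c, γ 1 1], by
    rw [Matrix.det_fin_two_of]; rw [hc] at hd; linear_combination hd⟩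
  have d00 : δ 0 0 = γ 0 0 := rfl
  have d01 : δ 0 1 = 11 * γ 0 1 := rfl
  have d10 : δ 1 0 = c := rfl
  have d11 : δ 1 1 = γ 1 1 := rfl
  have hu := coe_up' τ
  have hj : jj δ (up τ) = jj γ τ := by
    simp only [jj, d10, d11, hu, hc]; push_cast; ring
  have hs : 11 * ((γ • τ : ℍ) : ℂ) = (δ • up τ : ℍ) := by
    rw [Lat.coe_smul, Lat.coe_smul, d00, d01, d10, d11, hu, hc]
    push_cast
    ring
  have h4 : kk K4 δ + kk K4 γ = 0 := by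
    have : (11 : ZMod 4) = -1 := by decide
    have h5 : ((γ 0 0 : ℤ) : ZMod 4) * (γ 1 1 : ℤ) - (γ 0 1 : ℤ) * (-(c : ZMod 4)) = 1 := by
      have := congrArg (Int.cast : ℤ → ZMod 4) hd
      rw [hc] at this
      push_cast at this
      rw [show (11 : ZMod 4) = -1 by decide] at this
      linear_combination this
    simp only [kk, d00, d01, d10, d11, hc, Int.cast_mul, Int.cast_ofNat, this, neg_mul, one_mul]
    simpa using K4_neg _ _ _ _ h5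
  have h3 : kk K3 δ + kk K3 γ = 0 := by
    have : (11 : ZMod 3) = -1 := by decide
    simp only [kk, d00, d01, d10, d11, hc, Int.cast_mul, Int.cast_ofNat, this, neg_mul, one_mul]
    simpa using K3_neg (γ 0 0 : ℤ) (γ 0 1 : ℤ) (-c) (γ 1 1 : ℤ)
  have a6 := law6 γ τ
  have b6 := law6 δ (up τ)
  have a8 := law8 γ τ
  have b8 := law8 δ (up τ)
  rw [hj, hu] at b6 b8
  have e4 : ZMod.stdAddChar (kk K4 δ) * ZMod.stdAddChar (kk K4 γ) = 1 := by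
    rw [← AddChar.map_add_eq_mul, h4, AddChar.map_zero_eq_one]
  have e3 : ZMod.stdAddChar (kk K3 δ) * ZMod.stdAddChar (kk K3 γ) = 1 := by
    rw [← AddChar.map_add_eq_mul, h3, AddChar.map_zero_eq_one]
  have nj : jj γ τ ≠ 0 := Lat.denom_ne γ τ
  have n1 := eta_ne τ
  have n2 := eta_up_ne τ
  rw [Hh, Hh, hs, show fa γ τ = jj γ τ from rfl]
  generalize eta (γ • τ : ℍ) = A at *
  generalize eta (δ • up τ : ℍ) = B at *
  generalize eta (11 * (τ : ℂ)) = Y at *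
  generalize eta τ = X at *
  have p8 : (A * B) ^ 8 = jj γ τ ^ 8 * (X * Y) ^ 8 := by
    rw [mul_pow, a8, b8]
    linear_combination jj γ τ ^ 8 * (X * Y) ^ 8 * e3
  have p6 : (A * B) ^ 6 = jj γ τ ^ 6 * (X * Y) ^ 6 := by
    rw [mul_pow, a6, b6]
    linear_combination jj γ τ ^ 6 * (X * Y) ^ 6 * e4
  refine mul_left_cancel₀ (mul_ne_zero (pow_ne_zero 6 nj) (pow_ne_zero 6 (mul_ne_zero n1 n2))) ?_
  linear_combination p8 - (A * B) ^ 2 * p6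

theorem up_smul {γ : SL(2, ℤ)} (h : γ ∈ G0) : ∃ δ : SL(2, ℤ), γ 1 0 = 11 * δ 1 0 ∧
    ∀ τ : ℍ, up (γ • τ) = δ • up τ ∧ fa δ (up τ) = fa γ τ := by
  obtain ⟨c, hc⟩ : (11 : ℤ) ∣ γ 1 0 :=
    (ZMod.intCast_zmod_eq_zero_iff_dvd _ 11).1 (CongruenceSubgroup.Gamma0_mem.1 h)
  have h2 := γ.det_coe
  rw [Matrix.det_fin_two] at h2
  have h3 : γ 0 0 * γ 1 1 - γ 0 1 * γ 1 0 = 1 := h2
  let δ : SL(2, ℤ) := ⟨!![γ 0 0, 11 * γ 0 1; c, γ 1 1], by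
    rw [Matrix.det_fin_two_of]; rw [hc] at h3; linear_combination h3⟩
  have e : ∀ τ : ℍ, fa δ (up τ) = fa γ τ := fun τ => by
    change (c : ℂ) * _ + (γ 1 1 : ℤ) = _
    rw [coe_up', fa, hc]; push_cast; ring
  refine ⟨δ, hc, fun τ => ⟨?_, e τ⟩⟩
  apply UpperHalfPlane.ext
  rw [coe_up', Lat.coe_smul, Lat.coe_smul δ]
  change _ = (((γ 0 0 : ℤ) : ℂ) * _ + ((11 * γ 0 1 : ℤ) : ℂ)) / fa δ (up τ)
  rw [e, coe_up', mul_div_assoc']
  push_cast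
  ring

theorem e2_smul {γ : SL(2, ℤ)} (h : γ ∈ G0) (τ : ℍ) : e2 (γ • τ) = fa γ τ ^ 2 * e2 τ := by
  obtain ⟨δ, h1, h2⟩ := up_smul h
  obtain ⟨κ, h3⟩ := E2_smul
  rw [e2, e2, (h2 τ).1, h3, h3, (h2 τ).2, h1]
  push_cast
  ring

theorem up_form {k : ℤ} (f : ModularForm 𝒮ℒ k) {γ : SL(2, ℤ)} (h : γ ∈ G0) (τ : ℍ) :
    f (up (γ • τ)) = fa γ τ ^ k * f (up τ) := by
  obtain ⟨δ, -, h2⟩ := up_smul h
  rw [(h2 τ).1, form_smul, (h2 τ).2]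

theorem E4_up {γ : SL(2, ℤ)} (h : γ ∈ G0) (τ : ℍ) :
    E₄ (up (γ • τ)) = fa γ τ ^ 4 * E₄ (up τ) := by
  exact_mod_cast up_form E₄ h τ

theorem E6_up {γ : SL(2, ℤ)} (h : γ ∈ G0) (τ : ℍ) :
    E₆ (up (γ • τ)) = fa γ τ ^ 6 * E₆ (up τ) := by
  exact_mod_cast up_form E₆ h τ

theorem tf_Hh (τ : ℍ) : tf τ = discriminant τ / Hh τ ^ 6 := by
  have := eta_ne τ
  have := eta_up_ne τ
  rw [tf, discriminant, Hh]
  field_simp

theorem tf_pow (τ : ℍ) : tf τ ^ 2 = discriminant τ / discriminant (up τ) := by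
  rw [tf, discriminant, discriminant, coe_up', ← pow_mul, div_pow]

theorem inv_tf : Inv tf := fun γ hγ τ => by
  have h0 : fa γ τ ≠ 0 := Lat.denom_ne γ τ
  rw [tf_Hh, tf_Hh, Delta_smul, Hh_smul hγ, mul_pow, ← pow_mul,
    mul_div_mul_left _ _ (pow_ne_zero _ h0)]

theorem inv_hm : Inv hm := fun γ hγ τ => by
  have h0 : fa γ τ ≠ 0 := Lat.denom_ne γ τ
  have := Hh_ne τ
  rw [hm, hm, e2_smul hγ, Hh_smul hγ]
  field_simp

theorem inv_an : Inv an := fun γ hγ τ => by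
  have h0 : fa γ τ ≠ 0 := Lat.denom_ne γ τ
  have := Hh_ne τ
  rw [an, an, E4_smul, E4_up hγ, Hh_smul hγ]
  field_simp

theorem inv_xf : Inv xf := fun γ hγ τ => by simp only [xf, inv_hm γ hγ, inv_an γ hγ]

theorem inv_yf : Inv yf := fun γ hγ τ => by simp only [yf, inv_hm γ hγ, inv_xf γ hγ]

theorem inv_XX : Inv XX := fun γ hγ τ => by simp only [XX, inv_xf γ hγ]

theorem inv_YY : Inv YY := fun γ hγ τ => by simp only [YY, inv_yf γ hγ]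

/-! ### The Fricke involution -/

theorem coe_ww (τ : ℍ) : ((ww τ : ℍ) : ℂ) = -1 / (11 * τ) := Cos.coe_ww τ

theorem up_ww (τ : ℍ) : up (ww τ) = ModularGroup.S • τ := by
  apply UpperHalfPlane.ext
  have := τ.ne_zero
  rw [coe_up', coe_ww, coe_S]
  field_simp

theorem ww_ww (τ : ℍ) : ww (ww τ) = τ := Cos.ww_ww τ

theorem e2_ww (τ : ℍ) : e2 (ww τ) = -11 * (τ : ℂ) ^ 2 * e2 τ := by
  obtain ⟨κ, h3⟩ := E2_smul
  rw [e2, e2, up_ww, ww, h3, h3, fa_S, fa_S, coe_up']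
  simp only [ModularGroup.S, Matrix.SpecialLinearGroup.coe_mk, Matrix.of_apply, Matrix.cons_val',
    Matrix.cons_val_zero, Matrix.cons_val_one, Matrix.cons_val_fin_one, Int.cast_one]
  ring

theorem form_ww {k : ℤ} (f : ModularForm 𝒮ℒ k) (τ : ℍ) :
    f (ww τ) = (11 * (τ : ℂ)) ^ k * f (up τ) ∧ f (up (ww τ)) = (τ : ℂ) ^ k * f τ := by
  rw [up_ww, ww, form_smul, form_smul, fa_S, fa_S, coe_up']
  exact ⟨rfl, rfl⟩

theorem eta_ww (τ : ℍ) : ∃ s s' : ℂ, s ^ 2 = -Complex.I * τ ∧ s' ^ 2 = 11 * s ^ 2 ∧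
    eta (ww τ) = s' * eta (11 * (τ : ℂ)) ∧ eta (11 * ((ww τ : ℍ) : ℂ)) = s * eta τ := by
  obtain ⟨s, h1, h2⟩ := eta_S τ
  obtain ⟨s', h3, h4⟩ := eta_S (up τ)
  rw [coe_up'] at h3 h4
  refine ⟨s, s', h1, by rw [h1, h3]; ring, by rw [coe_ww, h4], ?_⟩
  rw [← coe_up', up_ww, coe_S, h2]

theorem Hh_ww (τ : ℍ) : Hh (ww τ) = -11 * (τ : ℂ) ^ 2 * Hh τ := by
  obtain ⟨s, s', h1, h2, h3, h4⟩ := eta_ww τ
  have e : (s' * s) ^ 2 = -11 * (τ : ℂ) ^ 2 := by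
    rw [mul_pow, h2, h1]
    linear_combination 11 * (τ : ℂ) ^ 2 * Complex.I_sq
  rw [Hh, Hh, h3, h4, ← e]
  ring

theorem tf_ww (τ : ℍ) : tf (ww τ) = 1771561 / tf τ := by
  obtain ⟨s, s', h1, h2, h3, h4⟩ := eta_ww τ
  have h0 : s ≠ 0 := fun e => by
    rw [e] at h1
    exact mul_ne_zero (neg_ne_zero.2 Complex.I_ne_zero) τ.ne_zero (by rw [← h1]; simp)
  have e : s' ^ 12 = 1771561 * s ^ 12 := by
    rw [show s' ^ 12 = (s' ^ 2) ^ 6 by ring, h2]; ring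
  have h5 := eta_ne τ
  have h6 := eta_up_ne τ
  rw [tf, tf, h3, h4, div_pow, mul_pow, e]
  field_simp

theorem hm_ww (τ : ℍ) : hm (ww τ) = hm τ := by
  have := τ.ne_zero
  have := Hh_ne τ
  rw [hm, hm, e2_ww, Hh_ww]
  field_simp

theorem an_ww (τ : ℍ) : an (ww τ) = -an τ := by
  have := τ.ne_zero
  have := Hh_ne τ
  rw [an, an, (form_ww E₄ τ).1, (form_ww E₄ τ).2, Hh_ww]
  field_simp
  ring

end Pool.Agent.Lib.MP_d6ddbd_nt.E11
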