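import Pool.Agent.Lib.MP_d6ddbd_nt.E11.Cur
import Pool.Agent.Lib.MP_d6ddbd_nt.K11.Defs

/-!
Level structures and their neighbours.
-/

set_option autoImplicit false

open UpperHalfPlane Pointwise
open scoped MatrixGroups
open Pool.Agent.Lib.MP_9177b7_ag.CM Pool.Agent.Lib.MP_9177b7_ag.CM.Norm
open Pool.Agent.Lib.MP_d6ddbd_nt.X (fa)
open Pool.Agent.Lib.MP_d6ddbd_nt.K11 (Lv Nb)

noncomputable section

namespace Pool.Agent.Lib.MP_d6ddbd_nt.E11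

variable {l : ℕ} {L M L' M' A B : Submodule ℤ ℂ} {c c' : ℂ} {z w : ℍ}

theorem smul_le_iff (hc : c ≠ 0) : c • A ≤ c • B ↔ A ≤ B := by
  refine ⟨fun h => ?_, smul_le_smul c⟩
  have := smul_le_smul c⁻¹ h
  rwa [smul_smul, smul_smul, inv_mul_cancel₀ hc, one_smul, one_smul] at this

theorem smul_lt_iff (hc : c ≠ 0) : c • A < c • B ↔ A < B := by
  rw [lt_iff_le_not_ge, lt_iff_le_not_ge, smul_le_iff hc, smul_le_iff hc]

theorem smul_eq_iff (hc : c ≠ 0) : c • A = c • B ↔ A = B := by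
  rw [le_antisymm_iff, le_antisymm_iff, smul_le_iff hc, smul_le_iff hc]

theorem nb_smul (hc : c ≠ 0) : Nb l (c • A) (c • B) ↔ Nb l A B := by
  rw [Nb, Nb, smul_comm, smul_lt_iff hc, smul_lt_iff hc]

theorem mul_mem {x : ℂ} (c : ℂ) (h : x ∈ A) : c * x ∈ c • A := Lat.mem_smul.2 ⟨x, h, rfl⟩

theorem nat_le (n : ℕ) (A : Submodule ℤ ℂ) : (n : ℂ) • A ≤ A := fun x hx => by
  obtain ⟨y, hy, rfl⟩ := Lat.mem_smul.1 hx
  exact_mod_cast Lat.int_mul_mem hy n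

theorem lv_pr (h : Lv L M) : ∃ c z, Pr L M c z := by
  obtain ⟨τ, c, hc, rfl⟩ := Lat.exists_tau L h.1
  obtain ⟨X, rfl⟩ : ∃ X : Submodule ℤ ℂ, M = c • (1 / 11 : ℂ) • X :=
    ⟨(11 * c⁻¹) • M, by rw [smul_smul, smul_smul, show c * (1 / 11) * (11 * c⁻¹) = 1 by
      field_simp, one_smul]⟩
  have e : (11 : ℂ) • (1 / 11 : ℂ) • X = X := by rw [smul_smul]; norm_num
  have h1 := (smul_lt_iff (c := 11) (by norm_num)).2 ((smul_lt_iff hc).1 h.2.1)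
  have h2 := h.2.2
  rw [smul_comm, smul_lt_iff hc, e] at h2
  rw [e] at h1
  rcases Lat.l8 11 τ X (by norm_num) (by exact_mod_cast h1) h2 with rfl | ⟨i, -, rfl⟩
  · exact ⟨c, τ, hc, rfl, by rw [sp_up]⟩
  · have h3 : Pr (c • sp (dn 11 i τ) 1) ((1 / 11 : ℂ) • c • sp τ 1) c (dn 11 i τ) := by
      refine ⟨hc, rfl, ?_⟩
      rw [smul_comm, coe_dn (by norm_num), Lat.smul_sp (1 / 11)]
      congr 1
      refine le_antisymm (Lat.sp_le (Lat.mem_sp.2 ⟨1, -i, ?_⟩) (Lat.mem_sp.2 ⟨0, 1, ?_⟩))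
        (Lat.sp_le (Lat.mem_sp.2 ⟨1, i, ?_⟩) (Lat.mem_sp.2 ⟨0, 1, ?_⟩)) <;> push_cast <;> ring
    have h4 := h3.ww.scale (d := 11) (by norm_num)
    simp only [smul_smul] at h4 ⊢
    rw [show 11 * (1 / 11 * c) = c by ring] at h4
    rw [show c * (1 / 11 * ((11 : ℕ) : ℂ)) = c by push_cast; ring]
    exact ⟨_, _, h4⟩

theorem Pr.le (h : Pr L M c z) : L ≤ M ∧ (11 : ℂ) • M ≤ L := by
  rw [h.2.1, h.2.2, smul_comm, smul_le_iff h.1, smul_le_iff h.1, Lat.smul_sp]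
  exact ⟨Lat.sp_le (Lat.left_mem _ _) (Lat.mem_sp.2 ⟨0, 11, by push_cast; ring⟩),
    Lat.sp_le (Lat.mem_sp.2 ⟨11, 0, by push_cast; ring⟩) (Lat.mem_sp.2 ⟨0, 1, by push_cast; ring⟩)⟩

/-- The points of the Hecke correspondence. -/
def nz (l : ℕ) (z : ℍ) (i : Option (Fin l)) : ℍ :=
  i.elim (MP_9177b7_ag.CM.up l z) fun i => dn l i z

/-- The scales of the Hecke correspondence. -/
def nc (l : ℕ) (i : Option (Fin l)) : ℂ := i.elim 1 fun _ => l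

/-- The neighbours of the lattice `c • sp z 1`. -/
def NN (l : ℕ) (c : ℂ) (z : ℍ) (i : Option (Fin l)) : Submodule ℤ ℂ :=
  (c * nc l i) • sp (nz l z i) 1

theorem sp_none (hl : l ≠ 0) (y : ℂ) : nc l none • sp (nz l z none) y = sp (l * z) y := by
  rw [nc, nz, Option.elim, Option.elim, one_smul, coe_up hl]

theorem sp_some (hl : l ≠ 0) (i : Fin l) (y : ℂ) :
    nc l (some i) • sp (nz l z (some i)) y = sp (z + (i : ℕ)) (l * y) := by
  rw [nc, nz, Option.elim, Option.elim, Lat.smul_sp, coe_dn hl,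
    mul_div_cancel₀ _ (by exact_mod_cast hl)]

theorem mem_none (a b : ℤ) : (a : ℂ) * z + b ∈ sp (l * z) 1 ↔ (l : ℤ) ∣ a := by
  rw [Lat.mem_sp]
  constructor
  · rintro ⟨m, n, e⟩
    exact ⟨m, (Lat.int_indep z a b (l * m) n (by push_cast; linear_combination -e)).1⟩
  · rintro ⟨m, rfl⟩
    exact ⟨m, b, by push_cast; ring⟩

theorem mem_some (a b : ℤ) (i : ℕ) :
    (a : ℂ) * z + b ∈ sp (z + i) (l * 1) ↔ (l : ℤ) ∣ b - a * i := by
  rw [Lat.mem_sp]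
  constructor
  · rintro ⟨m, n, e⟩
    obtain ⟨rfl, rfl⟩ := Lat.int_indep z a b m (m * i + l * n) (by push_cast; linear_combination -e)
    exact ⟨n, by ring⟩
  · rintro ⟨m, e⟩
    have e' : (b : ℂ) - a * i = l * m := by exact_mod_cast e
    exact ⟨a, m, by linear_combination -e'⟩

theorem mem_mul (a b : ℤ) : (a : ℂ) * z + b ∈ (l : ℂ) • sp z 1 ↔ (l : ℤ) ∣ a ∧ (l : ℤ) ∣ b := by
  rw [Lat.smul_sp, Lat.mem_sp]
  constructor
  · rintro ⟨m, n, e⟩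
    obtain ⟨rfl, rfl⟩ := Lat.int_indep z a b (l * m) (l * n) (by push_cast; linear_combination -e)
    simp
  · rintro ⟨⟨m, rfl⟩, n, rfl⟩
    exact ⟨m, n, by push_cast; ring⟩

theorem nb_iff (hl : l.Prime) (h : Pr L M c z) : Nb l L L' ↔ ∃ i, L' = NN l c z i := by
  have h1 : ¬ (l : ℤ) ∣ 1 := fun e => hl.not_dvd_one (by exact_mod_cast e)
  obtain ⟨X, rfl⟩ : ∃ X : Submodule ℤ ℂ, L' = c • X :=
    ⟨c⁻¹ • L', by rw [smul_smul, mul_inv_cancel₀ h.1, one_smul]⟩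
  simp only [h.2.1, nb_smul h.1, NN, mul_smul, smul_eq_iff h.1]
  constructor
  · intro k
    rcases Lat.l8 l z X hl k.1 k.2 with rfl | ⟨i, hi, rfl⟩
    · exact ⟨none, (one_smul _ _).symm⟩
    · exact ⟨some ⟨i, hi⟩, rfl⟩
  · rintro ⟨_ | i, rfl⟩
    · rw [sp_none hl.ne_zero]
      refine ⟨lt_of_le_not_ge ?_ fun e => h1 ?_, lt_of_le_not_ge ?_ fun e => h1 ?_⟩
      · rw [Lat.smul_sp]
        exact Lat.sp_le (Lat.left_mem _ _) (Lat.mem_sp.2 ⟨0, l, by simp⟩)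
      · exact ((mem_mul 0 1).1 (e ((mem_none 0 1).2 (by simp)))).2
      · exact Lat.sp_le (Lat.mem_sp.2 ⟨l, 0, by simp⟩) (Lat.right_mem _ _)
      · exact (mem_none 1 0).1 (e (Lat.mem_sp.2 ⟨1, 0, by simp⟩))
    · rw [sp_some hl.ne_zero]
      refine ⟨lt_of_le_not_ge ?_ fun e => h1 ?_, lt_of_le_not_ge ?_ fun e => h1 ?_⟩
      · rw [Lat.smul_sp]
        exact Lat.sp_le (Lat.mem_sp.2 ⟨l, -(i : ℕ), by push_cast; ring⟩) (Lat.right_mem _ _)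
      · exact ((mem_mul 1 (i : ℕ)).1 (e ((mem_some 1 (i : ℕ) i).2 (by simp)))).1
      · exact Lat.sp_le (Lat.mem_sp.2 ⟨1, (i : ℕ), by simp⟩) (Lat.mem_sp.2 ⟨0, l, by simp⟩)
      · simpa using (mem_some 0 1 i).1 (e (Lat.mem_sp.2 ⟨0, 1, by simp⟩))

theorem NN_inj (hl : l.Prime) (hc : c ≠ 0) : Function.Injective (NN l c z) := by
  have h1 : ¬ (l : ℤ) ∣ 1 := fun e => hl.not_dvd_one (by exact_mod_cast e)
  have h2 : ∀ i : ℕ, sp (l * z) 1 ≠ sp (z + i) (l * 1) := fun i e => h1 (by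
    simpa using (mem_some (l := l) (z := z) 0 1 i).1 (e ▸ (mem_none 0 1).2 (by simp)))
  rintro (_ | i) (_ | j) e <;> simp only [NN, mul_smul, smul_eq_iff hc, sp_none hl.ne_zero,
    sp_some hl.ne_zero] at e
  · rfl
  · exact absurd e (h2 j)
  · exact absurd e.symm (h2 i)
  · have h3 := (mem_some (l := l) (z := z) 1 (i : ℕ) j).1 (e ▸ (mem_some 1 (i : ℕ) i).2 (by simp))
    have h4 := Int.eq_zero_of_abs_lt_dvd h3 (by have := i.2; have := j.2; rw [abs_lt]; omega)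
    rw [show i = j from Fin.ext (by omega)]

theorem not_dvd (hl : l.Prime) (h11 : l ≠ 11) : ¬ (l : ℤ) ∣ 11 := fun e =>
  h11 ((Nat.prime_dvd_prime_iff_eq hl (by norm_num)).1 (by exact_mod_cast e))

theorem nc_ne (hl : l ≠ 0) (i : Option (Fin l)) : nc l i ≠ 0 := by
  rcases i with _ | i
  · exact one_ne_zero
  · exact Nat.cast_ne_zero.2 hl

theorem Pr.nb (hl : l.Prime) (h11 : l ≠ 11) (h : Pr L M c z) (i : Option (Fin l)) :
    Pr (NN l c z i) (NN l c z i ⊔ (l : ℂ) • M) (c * nc l i) (nz l z i) := by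
  refine ⟨mul_ne_zero h.1 (nc_ne hl.ne_zero i), rfl, ?_⟩
  rw [h.2.2, NN, mul_smul, mul_smul, smul_comm (l : ℂ), ← Submodule.smul_sup', smul_eq_iff h.1,
    Lat.smul_sp (l : ℂ)]
  rcases i with _ | i
  · rw [sp_none hl.ne_zero, sp_none hl.ne_zero]
    refine le_antisymm (sup_le (Lat.sp_le (Lat.left_mem _ _) (Lat.mem_sp.2 ⟨0, 11, by simp⟩))
      (Lat.sp_le (Lat.left_mem _ _) (Lat.mem_sp.2 ⟨0, l, by simp⟩)))
      (Lat.sp_le (Submodule.mem_sup_left (Lat.left_mem _ _)) ?_)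
    exact Lat.mem_of_coprime hl (not_dvd hl h11) (Submodule.mem_sup_right (Lat.right_mem _ _))
      (Submodule.mem_sup_left (Lat.mem_sp.2 ⟨0, 1, by simp⟩))
  · rw [sp_some hl.ne_zero, sp_some hl.ne_zero]
    exact le_antisymm (sup_le (Lat.sp_le (Lat.left_mem _ _)
      (Lat.mem_sp.2 ⟨0, 11, by push_cast; ring⟩))
      (Lat.sp_le (Lat.mem_sp.2 ⟨l, -11 * (i : ℕ), by push_cast; ring⟩) (Lat.right_mem _ _)))
      (Lat.sp_le (Submodule.mem_sup_left (Lat.left_mem _ _))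
        (Submodule.mem_sup_right (Lat.right_mem _ _)))

theorem perm (hl : l.Prime) (h11 : l ≠ 11) (h : Pr L M c z) {A : Option (Fin l) → Submodule ℤ ℂ}
    {d : Option (Fin l) → ℂ} {v : Option (Fin l) → ℍ} (hA : Function.Injective A)
    (hn : ∀ i, Nb l L (A i)) (hp : ∀ i, Pr (A i) (A i ⊔ (l : ℂ) • M) (d i) (v i)) :
    ∃ e : Equiv.Perm (Option (Fin l)), ∀ i, ∃ δ ∈ G0, nz l z (e i) = δ • v i ∧
      c * nc l (e i) = d i * fa δ (v i) := by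
  choose e he using fun i => (nb_iff hl h).1 (hn i)
  have hi : Function.Injective e := fun i j k => hA (by rw [he, he, k])
  exact ⟨Equiv.ofBijective e (Finite.injective_iff_bijective.1 hi), fun i =>
    (hp i).eq (he i ▸ h.nb hl h11 (e i))⟩

theorem pr_one (z : ℍ) : Pr (sp z 1) (sp z (1 / 11)) 1 z :=
  ⟨one_ne_zero, (one_smul _ _).symm, (one_smul _ _).symm⟩

theorem perm_smul (hl : l.Prime) (h11 : l ≠ 11) {γ : SL(2, ℤ)} (hγ : γ ∈ G0) (z : ℍ) :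
    ∃ e : Equiv.Perm (Option (Fin l)), ∀ i, ∃ δ ∈ G0, nz l (γ • z) (e i) = δ • nz l z i ∧
      fa γ z * nc l (e i) = nc l i * fa δ (nz l z i) := by
  simpa only [one_mul] using perm hl h11 ((pr_one z).smul hγ) (NN_inj hl one_ne_zero)
    (fun i => (nb_iff hl (pr_one z)).2 ⟨i, rfl⟩) ((pr_one z).nb hl h11)

theorem sup_eq (hl : l.Prime) (h11 : l ≠ 11) (h1 : L ≤ M) (h2 : (11 : ℂ) • M ≤ L) :
    L ⊔ (l : ℂ) • M = M :=
  le_antisymm (sup_le h1 (nat_le l M)) fun _ hx => Lat.mem_of_coprime hl (not_dvd hl h11)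
    (Submodule.mem_sup_right (mul_mem _ hx))
    (Submodule.mem_sup_left (h2 (by exact_mod_cast mul_mem 11 hx)))

theorem eleven (A : Submodule ℤ ℂ) : (11 : ℂ) • (1 / 11 : ℂ) • A = A := by
  rw [smul_smul]; norm_num

theorem le_div (A : Submodule ℤ ℂ) : A ≤ (1 / 11 : ℂ) • A := by
  simpa only [Nat.cast_ofNat, eleven] using nat_le 11 ((1 / 11 : ℂ) • A)

theorem fricke_sup (hl : l.Prime) (h11 : l ≠ 11) (h : Pr L M c z) (k1 : (l : ℂ) • L ≤ A)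
    (k2 : A ≤ L) : (A ⊔ (l : ℂ) • M) ⊔ (l : ℂ) • (1 / 11 : ℂ) • L = (1 / 11 : ℂ) • A := by
  have h3 : (l : ℂ) • (1 / 11 : ℂ) • L ≤ (1 / 11 : ℂ) • A := by
    rw [smul_comm]; exact smul_le_smul _ k1
  refine le_antisymm (sup_le (sup_le (le_div A) ((smul_le_smul _ ?_).trans h3)) h3) ?_
  · rw [← smul_le_iff (c := 11) (by norm_num), eleven]
    exact h.le.2
  · rw [← sup_eq hl h11 (le_div A) (eleven A).le]
    exact sup_le_sup le_sup_left (smul_le_smul _ (smul_le_smul _ k2))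

theorem perm_ww (hl : l.Prime) (h11 : l ≠ 11) (z : ℍ) :
    ∃ e : Equiv.Perm (Option (Fin l)), ∀ i, ∃ δ ∈ G0, nz l (ww z) (e i) = δ • ww (nz l z i) ∧
      z * nc l (e i) = nc l i * nz l z i * fa δ (ww (nz l z i)) := by
  have h := pr_one z
  have h0 : (1 / 11 : ℂ) ≠ 0 := by norm_num
  have hn := fun i => (nb_iff hl h).2 ⟨i, rfl⟩
  have hs := fun i => fricke_sup hl h11 h (hn i).1.le (hn i).2.le
  simpa only [one_mul] using perm hl h11 h.ww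
    (A := fun i => NN l 1 z i ⊔ (l : ℂ) • sp z (1 / 11)) (d := fun i => 1 * nc l i * nz l z i)
    (fun i j e => NN_inj hl one_ne_zero ((smul_eq_iff h0).1 (by
      rw [← hs, ← hs]; exact congrArg (· ⊔ _) e)))
    (fun i => ⟨lt_of_le_of_ne le_sup_right fun e => (hn i).1.ne ((smul_eq_iff h0).1 (by
        rw [← hs i, ← e, ← Submodule.smul_sup', smul_comm, sup_eq_right.2 h.ww.le.1])),
      lt_of_le_of_ne (sup_le ((hn i).2.le.trans h.le.1) (nat_le l _)) fun e =>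
        (hn i).2.ne ((smul_eq_iff h0).1 (by
          rw [← hs i, e, sup_eq hl h11 h.ww.le.1 h.ww.le.2]))⟩)
    fun i => (hs i).symm ▸ (h.nb hl h11 i).ww

theorem nb_symm (hl : l.Prime) (h11 : l ≠ 11) (z : ℍ) (i : Option (Fin l)) :
    ∃ j, ∃ δ ∈ G0, nz l (nz l z i) j = δ • z := by
  have h := pr_one z
  have h0 : (l : ℂ) ≠ 0 := Nat.cast_ne_zero.2 hl.ne_zero
  have hn := (nb_iff hl h).2 ⟨i, rfl⟩
  have h1 := h.nb hl h11 i
  obtain ⟨j, hj⟩ := (nb_iff hl h1).1 ⟨(smul_lt_iff h0).2 hn.2, hn.1⟩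
  have h2 := h1.nb hl h11 j
  rw [← hj, ← Submodule.smul_sup', ← sup_assoc, sup_eq_left.2 hn.2.le,
    sup_eq hl h11 h.le.1 h.le.2] at h2
  obtain ⟨δ, h3, h4, -⟩ := (h.scale h0).eq h2
  exact ⟨j, δ, h3, h4⟩

theorem sum_nb {β : Type} [AddCommMonoid β] (hl : l.Prime) (h : Pr L M c z)
    {s : Finset (Submodule ℤ ℂ)} (hs : ∀ L', L' ∈ s ↔ Nb l L L') (g : Submodule ℤ ℂ → β) :
    ∑ L' ∈ s, g L' = ∑ i, g (NN l c z i) :=
  (Finset.sum_nbij (NN l c z) (fun i _ => (hs _).2 ((nb_iff hl h).2 ⟨i, rfl⟩))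
    (NN_inj hl h.1).injOn (fun A hA => by
      obtain ⟨i, rfl⟩ := (nb_iff hl h).1 ((hs A).1 hA)
      exact ⟨i, by simp, rfl⟩) fun _ _ => rfl).symm

end Pool.Agent.Lib.MP_d6ddbd_nt.E11
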