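import Pool.Agent.Lib.MP_d6ddbd_nt.E11.Nbr

/-!
Derivatives on the upper half plane, and the differential equation of the parametrisation.
-/

set_option autoImplicit false

open UpperHalfPlane Filter Topology PowerSeries
open scoped MatrixGroups
open Pool.Agent.Lib.MP_9177b7_ag.CM Pool.Agent.Lib.MP_9177b7_ag.CM.Norm
open Pool.Agent.Lib.MP_d6ddbd_nt.X (fa qq qq_ne qq_lt Ex hq_congr hq_sub hq_smul hq_X hq_disc
  hq_of_disc hq_pow ex_p2 getD_map_range an_of_disc)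

noncomputable section

namespace Pool.Agent.Lib.MP_d6ddbd_nt.E11

variable {F G F' G' : ℍ → ℂ} {m N l : ℕ} {a : PowerSeries ℂ} {k : List ℚ}

/-- The number `2 π i`. -/
def tp : ℂ := 2 * Real.pi * Complex.I

theorem tp_ne : tp ≠ 0 := Complex.two_pi_I_ne_zero

/-- `F'` is the derivative of `F`. -/
def HD (F F' : ℍ → ℂ) : Prop := ∀ τ : ℍ, HasDerivAt (F ∘ ofComplex) (F' τ) τ

theorem HD.unique (h : HD F F') (h' : HD F G') (τ : ℍ) : F' τ = G' τ := (h τ).unique (h' τ)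

theorem HD.congr (h : HD F F') (e : ∀ τ, G τ = F τ) (e' : ∀ τ, G' τ = F' τ) : HD G G' := by
  rwa [funext e, funext e']

theorem hd_of {g : ℂ → ℂ} (e : ∀ τ : ℍ, F τ = g τ) (h : ∀ τ : ℍ, HasDerivAt g (F' τ) τ) :
    HD F F' := fun τ => by
  refine (h τ).congr_of_eventuallyEq ?_
  filter_upwards [isOpen_upperHalfPlaneSet.mem_nhds τ.im_pos] with z hz
  rw [Function.comp_apply, e, ofComplex_apply_of_im_pos hz]

theorem HD.comp (h : HD F F') {μ : ℍ → ℍ} (hm : HD (fun τ => (μ τ : ℂ)) G') :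
    HD (fun τ => F (μ τ)) fun τ => F' (μ τ) * G' τ := fun τ => by
  have := HasDerivAt.comp_of_eq (τ : ℂ) (h (μ τ)) (hm τ) (by simp)
  refine this.congr_of_eventuallyEq (Eventually.of_forall fun z => ?_)
  simp

theorem HD.add (h : HD F F') (h' : HD G G') : HD (fun τ => F τ + G τ) fun τ => F' τ + G' τ :=
  fun τ => (h τ).add (h' τ)

theorem HD.mul (h : HD F F') (h' : HD G G') :
    HD (fun τ => F τ * G τ) fun τ => F' τ * G τ + F τ * G' τ :=
  fun τ => ((h τ).mul (h' τ)).congr_deriv (by simp)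

theorem HD.smul (h : HD F F') (c : ℂ) : HD (fun τ => c * F τ) fun τ => c * F' τ :=
  fun τ => (h τ).const_mul c

theorem HD.sum {ι : Type} (s : Finset ι) {F F' : ι → ℍ → ℂ} (h : ∀ i, HD (F i) (F' i)) :
    HD (fun τ => ∑ i ∈ s, F i τ) fun τ => ∑ i ∈ s, F' i τ :=
  fun τ => HasDerivAt.fun_sum fun i _ => h i τ

theorem HD.const (h : HD F F') (e : ∀ τ, F' τ = 0) : ∃ c, ∀ τ, F τ = c := by
  obtain ⟨c, hc⟩ := isOpen_upperHalfPlaneSet.exists_is_const_of_deriv_eq_zero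
    (convex_halfSpace_im_gt 0).isPreconnected (f := F ∘ ofComplex)
    (fun z hz => (h ⟨z, hz⟩).differentiableAt.differentiableWithinAt)
    fun z hz => (h ⟨z, hz⟩).deriv.trans (e _)
  exact ⟨c, fun τ => by simpa using hc τ τ.im_pos⟩

theorem hd_smul (γ : SL(2, ℤ)) : HD (fun τ => ((γ • τ : ℍ) : ℂ)) fun τ => 1 / fa γ τ ^ 2 := by
  refine hd_of (g := fun z => (((γ 0 0 : ℤ) : ℂ) * z + (γ 0 1 : ℤ)) /
    (((γ 1 0 : ℤ) : ℂ) * z + (γ 1 1 : ℤ))) (Lat.coe_smul γ) fun τ => ?_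
  have h := ((((hasDerivAt_id (τ : ℂ)).const_mul ((γ 0 0 : ℤ) : ℂ)).add_const
    ((γ 0 1 : ℤ) : ℂ)).div (((hasDerivAt_id (τ : ℂ)).const_mul ((γ 1 0 : ℤ) : ℂ)).add_const
    ((γ 1 1 : ℤ) : ℂ)) (Lat.denom_ne γ τ))
  have hd : ((γ 0 0 : ℤ) : ℂ) * (γ 1 1 : ℤ) - (γ 0 1 : ℤ) * (γ 1 0 : ℤ) = 1 := by
    exact_mod_cast Cos.det γ
  refine h.congr_deriv ?_
  simp only [id]
  congr 1
  linear_combination hd

theorem hd_ww : HD (fun τ => ((ww τ : ℍ) : ℂ)) fun τ => 1 / (11 * (τ : ℂ) ^ 2) := by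
  refine hd_of (g := fun z => -1 / (11 * z)) coe_ww fun τ => ?_
  have h0 := τ.ne_zero
  have h := (hasDerivAt_const (τ : ℂ) (-1 : ℂ)).div ((hasDerivAt_id (τ : ℂ)).const_mul 11)
    (mul_ne_zero (by norm_num) h0)
  refine h.congr_deriv ?_
  simp only [id]
  field_simp
  ring

theorem hd_nz (hl : l ≠ 0) (i : Option (Fin l)) :
    HD (fun τ => (nz l τ i : ℂ)) fun _ => l / nc l i ^ 2 := by
  have h0 : (l : ℂ) ≠ 0 := Nat.cast_ne_zero.2 hl
  rcases i with _ | i
  · refine hd_of (g := fun z => l * z) (coe_up hl) fun τ => ?_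
    simpa [nc] using (hasDerivAt_id (τ : ℂ)).const_mul (l : ℂ)
  · refine hd_of (g := fun z => (z + (i : ℕ)) / l) (coe_dn hl i) fun τ => ?_
    refine (((hasDerivAt_id (τ : ℂ)).add_const ((i : ℕ) : ℂ)).div_const (l : ℂ)).congr_deriv ?_
    simp only [nc, Option.elim]
    field_simp

theorem deriv_qq (z : ℂ) :
    HasDerivAt (Function.Periodic.qParam 1) (tp * Function.Periodic.qParam 1 z) z := by
  have h := (((hasDerivAt_id z).const_mul tp).div_const ((1 : ℝ) : ℂ)).cexp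
  refine h.congr_deriv ?_
  simp [Function.Periodic.qParam, tp, mul_comm]

theorem hd_disc {g g' : ℂ → ℂ} (h : ∀ z ∈ Metric.ball (0 : ℂ) 1, HasDerivAt g (g' z) z) :
    HD (fun τ => g (qq 1 τ)) fun τ => tp * (qq 1 τ * g' (qq 1 τ)) :=
  hd_of (g := g ∘ Function.Periodic.qParam 1) (fun _ => rfl) fun τ => by
    refine ((h _ (by simpa using qq_lt one_pos τ)).comp (τ : ℂ) (deriv_qq τ)).congr_deriv ?_
    ring

theorem hq_hd (H : HQ 1 F a) :
    ∃ F', HD F (fun τ => tp * F' τ) ∧ HQ 1 F' (X * derivative ℂ a) := by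
  obtain ⟨g, hg, e, rfl⟩ := hq_disc one_pos H
  refine ⟨_, (hd_disc fun z hz => (hg.differentiableAt
    (Metric.isOpen_ball.mem_nhds hz)).hasDerivAt).congr e fun _ => rfl, ?_⟩
  rw [← Mono.tay_deriv]
  exact HQ_mul (hq_X 1) (hq_of_disc one_pos (hg.deriv Metric.isOpen_ball) fun _ => rfl)

theorem ex_th (H : Ex m N F k) : ∃ F', HD F (fun τ => tp * F' τ) ∧
    Ex m N F' ((List.range N).map fun i : ℕ => ((i : ℚ) - m) * k.getD i 0) := by
  obtain ⟨φ, h1, h2⟩ := id H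
  obtain ⟨G', h3, h4⟩ := hq_hd h1
  refine ⟨fun τ => (qq 1 τ ^ m)⁻¹ * G' τ - m * F τ, ?_, X * derivative ℚ φ - C (m : ℚ) * φ, ?_,
    fun i hi => ?_⟩
  · have h5 : HD (fun τ => (qq 1 τ ^ m)⁻¹) fun τ => -(tp * m * (qq 1 τ ^ m)⁻¹) :=
      hd_of (g := fun z => (Function.Periodic.qParam 1 z ^ m)⁻¹) (fun _ => rfl) fun τ => by
        have := qq_ne 1 τ
        refine (((deriv_qq τ).pow m).inv (pow_ne_zero m this)).congr_deriv ?_
        rcases m with _ | m
        · simp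
        · simp only [Pi.pow_apply, Nat.add_sub_cancel]
          field_simp
          ring
    refine (h5.mul h3).congr H.eq fun τ => ?_
    have := qq_ne 1 τ
    field_simp
    ring
  · rw [map_sub, map_mul, map_mul, map_X, map_C, show (derivative ℚ φ).map (algebraMap ℚ ℂ) =
      derivative ℂ (φ.map (algebraMap ℚ ℂ)) by ext; simp [coeff_derivative]]
    refine hq_congr (hq_sub h4 (hq_smul _ h1)) fun τ => ?_
    have := qq_ne 1 τ
    simp only [eq_ratCast, Rat.cast_natCast]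
    field_simp
  · rw [getD_map_range hi, ← h2 i hi, map_sub, coeff_C_mul]
    cases i with
    | zero => simp
    | succ i => rw [coeff_succ_X_mul, coeff_derivative]; push_cast; ring

theorem hd_xf : HD xf fun τ => -(tp * Hh τ * (2 * yf τ + 1)) := by
  obtain ⟨x', h1, h2⟩ := ex_th ex_xf
  obtain ⟨v', h3, h4⟩ := ex_th ex_xw
  have h5 := (((h2.mul ex_iH).mono (by norm_num)).add (ex_yf.smul 2)).add
    (X.Ex.const 4 1).pad.pad.pad
  have h6 := ((((h4.mul (ex_iH.mono (by norm_num))).congr (l := [0, 121]) (N' := 2) (by norm_num)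
    (by decide +kernel) fun _ => rfl).down.smul (-1)).add
    ((ex_yw.mono (by norm_num)).smul 2)).add (X.Ex.const 1 1)
  have := zero_of (m := 3) (h5.congr le_rfl (by decide +kernel) fun _ => rfl)
    (fun γ hγ τ => by
      have e := (h1.comp (hd_smul γ)).unique (h1.congr (inv_xf γ hγ) fun _ => rfl) τ
      have h0 : fa γ τ ≠ 0 := Lat.denom_ne γ τ
      have := tp_ne
      have := Hh_ne τ
      rw [Hh_smul hγ, inv_yf γ hγ]
      field_simp at e ⊢
      rw [e]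
      ring)
    (by
      refine h6.bdd.congr_left fun τ => ?_
      have e := (h1.comp hd_ww).unique h3 τ
      have := tp_ne
      have := Hh_ne τ
      have := τ.ne_zero
      rw [Hh_ww]
      field_simp at e ⊢
      rw [e]
      push_cast
      ring)
  refine h1.congr (fun _ => rfl) fun τ => ?_
  have e := this τ
  have := Hh_ne τ
  push_cast at e
  field_simp at e
  linear_combination -tp * e

theorem hd_XX : HD XX fun τ => -(tp * Hh τ * YY τ) :=
  (hd_xf.smul 4).congr (fun _ => rfl) fun τ => by rw [YY]; ring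

/-- The integral of the newform. -/
theorem exists_int : ∃ W a, HD W (fun τ => tp * Hh τ) ∧ HQ 1 W a ∧ coeff 0 a = 0 := by
  obtain ⟨φ, h1, -⟩ := ex_p2.mul (ex_up ex_p2 le_rfl)
  obtain ⟨g, hg, e, -⟩ := hq_disc one_pos h1
  obtain ⟨G, h0, hG⟩ := hg.isExactOn_ball.with_val_at 0 0
  refine ⟨_, _, (hd_disc hG).congr (fun _ => rfl) fun τ => ?_, hq_of_disc one_pos
    (fun z hz => (hG z hz).differentiableAt.differentiableWithinAt) fun _ => rfl, ?_⟩
  · rw [← e, Hh_eq]; ring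
  · simp [Mono.coeff_tay, h0]

theorem int_ww {W : ℍ → ℂ} (h : HD W fun τ => tp * Hh τ) : ∃ c, ∀ τ, W (ww τ) + W τ = c :=
  ((h.comp hd_ww).add h).const fun τ => by
    have := τ.ne_zero
    rw [Hh_ww]
    field_simp
    ring

end Pool.Agent.Lib.MP_d6ddbd_nt.E11
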