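import Pool.Agent.Lib.MP_d6ddbd_nt.E11.Th
import Pool.Agent.Lib.MP_d6ddbd_nt.E11.Grp

/-!
The modular parametrisation is the integral of the newform modulo periods.
-/

set_option autoImplicit false

open UpperHalfPlane Filter Topology PowerSeries Pointwise WeierstrassCurve
open Pool.Agent.Lib.MP_9177b7_ag.CM Pool.Agent.Lib.MP_9177b7_ag.CM.Norm
open Pool.Agent.Lib.MP_02f36d_nt (xc yc pt_ext vcMap vcMap_spec vcMap_inv infinite_pt)
open Pool.Agent.Lib.MP_d6ddbd_nt.K11 (EE Pt UnifStmt)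
open Pool.Agent.Lib.MP_d6ddbd_nt.X (hq_tendsto hq_X hq_pow)

noncomputable section

namespace Pool.Agent.Lib.MP_d6ddbd_nt.E11

theorem exists_unif (hU : UnifStmt) : ∃ (P : PeriodPair) (u : ℂ →+ Pt), Function.Surjective u ∧
    (∀ z, u z = 0 ↔ z ∈ P.lattice) ∧ ∀ z, z ∉ P.lattice →
      xc (u z) = P.weierstrassP z + 4 / 3 ∧ yc (u z) = deriv P.weierstrassP z / 2 := by
  obtain ⟨τ, hτ⟩ := hyp.eis.2.2.2.2.2.2.2
    (1728 * (1984 / 3) ^ 3 / ((1984 / 3) ^ 3 - 27 * (160064 / 27) ^ 2))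
  rw [← hyp.jL_sp] at hτ
  obtain ⟨c, hc, h4, h6⟩ := exists_scale (hyp.dis_ne_zero (hyp.isLat_sp τ)) (by norm_num) hτ
  rw [← hyp.g2_smul _ hc] at h4
  rw [← hyp.g3_smul _ hc] at h6
  obtain ⟨P, hP⟩ := hyp.isLat_smul (hyp.isLat_sp τ) hc
  rw [← hP] at h4 h6
  obtain ⟨-, u, h1, h2, h3⟩ := hU P.lattice _ ⟨P, rfl⟩ rfl
  have e : (⟨1, 4 / 3, 0, 0⟩ : VariableChange ℂ) • EE =
      ⟨0, 0, 0, -g2 P.lattice / 4, -g3 P.lattice / 4⟩ := by
    rw [h4, h6]
    ext <;> simp [variableChange_def, EE] <;> norm_num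
  have i1 := infinite_pt (V := EE) (Ψ₂Sq_ne_zero _ (by norm_num))
  have i2 := infinite_pt (V := ⟨0, 0, 0, -g2 P.lattice / 4, -g3 P.lattice / 4⟩)
    (Ψ₂Sq_ne_zero _ (by norm_num))
  refine ⟨P, (vcMap e).comp u, Function.Surjective.comp (g := vcMap e)
    (fun Q => ⟨_, vcMap_inv e (by rw [← e, inv_smul_smul]) Q⟩) h1, fun z => ?_, fun z hz => ?_⟩
  · rw [← h2]
    exact ⟨fun k => by_contra fun k' => (vcMap_spec e k').1 k, fun k => by simp [k]⟩
  · obtain ⟨-, k1, k2⟩ := vcMap_spec e (fun k => hz ((h2 z).1 k))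
    rw [(h3 z hz).1] at k1
    rw [(h3 z hz).2] at k2
    exact ⟨by simpa [wp_eq] using k1, by simpa [wp_eq] using k2⟩

theorem loc_inv {p f A B w w' : ℂ → ℂ} {c z₀ : ℂ} (hp : AnalyticAt ℂ p c)
    (h1 : ∀ᶠ x in 𝓝 c, (deriv p x / 2) ^ 2 = f (p x)) (h2 : ∀ᶠ z in 𝓝 z₀, B z ^ 2 = f (A z))
    (hA : ∀ᶠ z in 𝓝 z₀, HasDerivAt A (2 * B z * w' z) z) (hw : ∀ᶠ z in 𝓝 z₀, HasDerivAt w (w' z) z)
    (hB : ContinuousAt B z₀) (e1 : A z₀ = p c) (e2 : B z₀ = deriv p c / 2) (h0 : B z₀ ≠ 0) :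
    ∀ᶠ z in 𝓝 z₀, p (c + w z - w z₀) = A z ∧ deriv p (c + w z - w z₀) / 2 = B z := by
  have hd : deriv p c ≠ 0 := fun e => h0 (by rw [e2, e, zero_div])
  obtain ⟨r, r1, r2, r3⟩ : ∃ r : ℂ → ℂ, AnalyticAt ℂ r (p c) ∧ r (p c) = c ∧
      ∀ᶠ x in 𝓝 (p c), p (r x) = x :=
    ⟨_, hp.analyticAt_localInverse hd, HasStrictFDerivAt.localInverse_apply_image ..,
      HasStrictDerivAt.eventually_right_inverse ..⟩
  have tA : Tendsto A (𝓝 z₀) (𝓝 (p c)) := e1 ▸ hA.self_of_nhds.continuousAt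
  have tv : Tendsto (fun z => r (A z)) (𝓝 z₀) (𝓝 c) := r2 ▸ r1.continuousAt.tendsto.comp tA
  have k1 : ∀ᶠ z in 𝓝 z₀, p (r (A z)) = A z := tA.eventually r3
  have k2 : ∀ᶠ z in 𝓝 z₀, deriv p (r (A z)) / 2 = B z := by
    have t : Tendsto (fun z => deriv p (r (A z)) / 2 + B z) (𝓝 z₀) (𝓝 (deriv p c / 2 + B z₀)) :=
      ((hp.deriv.continuousAt.tendsto.comp tv).div_const 2).add hB
    filter_upwards [k1, tv.eventually h1, h2, t.eventually_ne (b₂ := 0)
      (by rw [← e2, ← two_mul]; exact mul_ne_zero two_ne_zero h0)] with z a1 a2 a3 a4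
    rw [a1, ← a3] at a2
    exact mul_right_cancel₀ a4 (by linear_combination a2)
  have k3 : ∀ᶠ z in 𝓝 z₀, HasDerivAt (fun z => r (A z) - w z) 0 z := by
    filter_upwards [k1.eventually_nhds, k2, hA, hw, hB.eventually_ne h0,
      tA.eventually r1.eventually_analyticAt, tv.eventually hp.eventually_analyticAt]
      with z a1 a2 a3 a4 a5 a6 a7
    have b1 := a6.differentiableAt.hasDerivAt.comp z a3
    have b2 := ((a7.differentiableAt.hasDerivAt.comp z b1).congr_of_eventuallyEq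
      (a1.mono fun _ e => e.symm)).unique a3
    refine (b1.sub a4).congr_deriv (mul_left_cancel₀ (mul_ne_zero two_ne_zero a5) ?_)
    rw [← a2] at b2 ⊢
    linear_combination b2
  obtain ⟨ε, hε, k4⟩ := Metric.eventually_nhds_iff_ball.1 k3
  filter_upwards [k1, k2, Metric.ball_mem_nhds z₀ hε] with z a1 a2 a3
  have := Metric.isOpen_ball.is_const_of_deriv_eq_zero (convex_ball z₀ ε).isPreconnected
    (fun x hx => (k4 x hx).differentiableAt.differentiableWithinAt)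
    (fun x hx => (k4 x hx).deriv) a3 (Metric.mem_ball_self hε)
  rw [e1, r2] at this
  rw [show c + w z - w z₀ = r (A z) by linear_combination -this]
  exact ⟨a1, a2⟩

theorem HD.ev {F F' : ℍ → ℂ} (h : HD F F') (τ : ℍ) :
    ∀ᶠ z in 𝓝 (τ : ℂ), HasDerivAt (F ∘ ofComplex) (F' (ofComplex z)) z := by
  filter_upwards [isOpen_upperHalfPlaneSet.mem_nhds τ.im_pos] with z hz
  rw [ofComplex_apply_of_im_pos hz]
  exact h ⟨z, hz⟩

theorem cont_YY (τ : ℍ) : ContinuousAt (YY ∘ ofComplex) τ :=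
  ((ex_yf.hol.const_mul 8).add_const 4).continuousOn.continuousAt
    (isOpen_upperHalfPlaneSet.mem_nhds τ.im_pos)

theorem unif (hU : UnifStmt) {W : ℍ → ℂ} (hW : HD W fun τ => tp * Hh τ)
    (h0 : Tendsto W atImInfty (𝓝 0)) : ∃ u : ℂ →+ Pt, ∀ τ, phi τ = u (W τ) := by
  obtain ⟨P, u, h1, h2, h3⟩ := exists_unif hU
  have hw := hW.smul (-1 / 2)
  let D : ℍ → Pt := fun τ => phi τ - u (-1 / 2 * W τ)
  have key : ∀ τ, YY τ ≠ 0 → ∀ᶠ x in 𝓝 τ, D x = D τ := fun τ hτ => by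
    obtain ⟨c, hc⟩ := h1 (phi τ)
    have c0 : c ∉ P.lattice := fun e => (phi_spec τ).1 (hc ▸ (h2 c).2 e)
    have c1 := P.isClosed_lattice.isOpen_compl.mem_nhds c0
    have c2 := h3 c c0
    rw [hc, (phi_spec τ).2.1, (phi_spec τ).2.2] at c2
    have := loc_inv (p := P.weierstrassP) (A := fun z => (XX ∘ ofComplex) z - 4 / 3)
      (B := YY ∘ ofComplex) (f := fun x => (x + 4 / 3) ^ 3 - 4 * (x + 4 / 3) ^ 2 -
        160 * (x + 4 / 3) - 1264) (z₀ := τ) (Mono.analyticAt_wp P c0)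
      (by
        filter_upwards [c1] with x hx
        rw [← (h3 x hx).1, ← (h3 x hx).2]
        exact pt_eqn fun e => hx ((h2 x).1 e))
      (Eventually.of_forall fun z => by simpa using eqn (ofComplex z))
      ((hd_XX.ev τ).mono fun z hz => (hz.sub_const _).congr_deriv
        (by simp only [Function.comp_apply]; ring))
      (hw.ev τ) (cont_YY τ) (by simp [c2.1]) (by simp [c2.2]) (by simpa using hτ)
    have t : Tendsto (fun z => c + ((fun τ => -1 / 2 * W τ) ∘ ofComplex) z -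
        ((fun τ => -1 / 2 * W τ) ∘ ofComplex) τ) (𝓝 τ) (𝓝 c) := by
      simpa using ((hw τ).continuousAt.tendsto.const_add c).sub_const
        (((fun τ => -1 / 2 * W τ) ∘ ofComplex) τ)
    filter_upwards [continuous_coe.continuousAt.tendsto.eventually (this.and (t.eventually c1))]
      with x hx
    simp only [Function.comp_apply, ofComplex_apply] at hx
    obtain ⟨⟨a1, a2⟩, a3⟩ := hx
    have e := pt_ext (phi_spec x).1 (fun e => a3 ((h2 _).1 e))
      (by rw [(h3 _ a3).1, a1, (phi_spec x).2.1]; ring) (by rw [(h3 _ a3).2, a2, (phi_spec x).2.2])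
    simp only [D, e, map_sub, map_add, hc]
    abel
  have two : ∀ τ, YY τ = 0 → 2 • phi τ = 0 := fun τ hτ => by
    obtain ⟨a0, a1, a2⟩ := neg_spec (phi_spec τ).1
    rw [two_nsmul, ← eq_neg_iff_add_eq_zero]
    exact pt_ext (phi_spec τ).1 a0 a1.symm (by rw [a2, (phi_spec τ).2.2, hτ, neg_zero])
  obtain ⟨κ, hκ⟩ := int_ww hW
  have hD : ∀ τ, D τ = t0 - u (-1 / 2 * κ) - D (ww τ) := fun τ => by
    simp only [D, phi_ww, ← hκ τ, mul_add, map_add]
    abel
  have lc : IsLocallyConstant D := (IsLocallyConstant.iff_eventually_eq D).2 fun τ => by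
    by_cases hτ : YY τ = 0
    · have h4 : YY (ww τ) ≠ 0 := fun e => by
        have := two _ e
        rw [phi_ww, nsmul_sub, two τ hτ, sub_zero] at this
        exact two_spec.1 this
      filter_upwards [Cos.cont_ww.continuousAt.tendsto.eventually (key _ h4)] with x hx
      rw [hD x, hD τ, hx]
    · exact key τ hτ
  obtain ⟨c, hc⟩ := h1 (D I)
  have h5 : ∀ τ, phi τ = u (c + -1 / 2 * W τ) := fun τ => by
    rw [map_add, hc, lc.apply_eq_of_preconnectedSpace I τ]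
    exact (sub_add_cancel _ _).symm
  have h6 : c ∈ P.lattice := by
    by_contra c0
    have t1 : Tendsto (fun τ => X.qq 1 τ ^ 2 * ((P.weierstrassP (c + -1 / 2 * W τ) + 4 / 3) / 4))
        atImInfty (𝓝 (0 * ((P.weierstrassP c + 4 / 3) / 4))) := by
      refine Tendsto.mul (by simpa using hq_tendsto one_pos (hq_pow (hq_X 1) 2))
        ((((Mono.analyticAt_wp P c0).continuousAt.tendsto.comp ?_).add_const _).div_const _)
      simpa using (h0.const_mul (-1 / 2)).const_add c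
    obtain ⟨φ, k1, k2⟩ := ex_xf
    have t2 := hq_tendsto one_pos k1
    rw [coeff_map, k2 0 (by norm_num)] at t2
    have := tendsto_nhds_unique t2 (t1.congr fun τ => by
      rw [← (h3 _ fun e => (phi_spec τ).1 (h5 τ ▸ (h2 _).2 e)).1, ← h5, (phi_spec τ).2.1, XX]
      ring)
    simp at this
  refine ⟨u.comp (AddMonoidHom.mulLeft (-1 / 2)), fun τ => ?_⟩
  rw [h5, map_add, (h2 c).2 h6, zero_add]
  rfl

end Pool.Agent.Lib.MP_d6ddbd_nt.E11
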